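import Pool.Agent.Run7.h417.CQ.Basic

set_option autoImplicit false

/-!
# Minimal circumscribed quadrilaterals (MP_b29168_gt): lower bounds for areas
-/

namespace Run7.h417.CQ

open MeasureTheory Set Filter Topology

theorem vol_line0 : volume {x : ℝ × ℝ | x.2 = 0} = 0 := by
  have : {x : ℝ × ℝ | x.2 = 0} = univ ×ˢ {0} := by ext; simp
  rw [this, Measure.volume_eq_prod, Measure.prod_prod]
  simp

theorem vol_sT' : ENNReal.ofReal (1 / 2) ≤ volume (sT ∩ {x | 0 < x.2}) := by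
  have hm : MeasurableSet {x : ℝ × ℝ | 0 < x.2} := measurableSet_lt measurable_const measurable_snd
  have h := measure_inter_add_sdiff (μ := volume) sT hm
  have h0 : volume (sT \ {x | 0 < x.2}) = 0 := by
    refine measure_mono_null ?_ vol_line0
    rintro x ⟨⟨_, h2, _⟩, h4⟩
    exact le_antisymm (not_lt.mp h4) h2
  rw [h0, add_zero, vol_sT] at h
  exact h.ge

theorem vol_piece (p q r : ℝ × ℝ) :
    ENNReal.ofReal (-tr p q r / 2) ≤ volume (Tri p q r ∩ {x | tr p q x < 0}) := by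
  rcases le_or_gt 0 (tr p q r) with hh | hh
  · rw [ENNReal.ofReal_of_nonpos (by linarith)]
    exact zero_le
  · have hsub : ((fun x : ℝ × ℝ => (p.1 + ((q - p).1 * x.1 + (r - p).1 * x.2),
        p.2 + ((q - p).2 * x.1 + (r - p).2 * x.2))) '' (sT ∩ {x | 0 < x.2})) ⊆
        Tri p q r ∩ {x | tr p q x < 0} := by
      rintro _ ⟨⟨s, t⟩, ⟨⟨h1, h2, h3⟩, h4⟩, rfl⟩
      refine ⟨⟨s, t, h1, h2, h3, rfl⟩, ?_⟩
      show tr p q _ < 0
      have e : tr p q (p.1 + ((q - p).1 * s + (r - p).1 * t),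
          p.2 + ((q - p).2 * s + (r - p).2 * t)) = t * tr p q r := by
        unfold tr
        simp only [Prod.fst_sub, Prod.snd_sub]
        ring
      have h4' : 0 < t := h4
      simp only
      rw [e]
      nlinarith
    refine le_trans ?_ (measure_mono hsub)
    rw [vol_affine]
    have : cr (q - p) (r - p) = tr p q r := rfl
    rw [this, abs_of_neg hh]
    calc ENNReal.ofReal (-tr p q r / 2) = ENNReal.ofReal (-tr p q r) * ENNReal.ofReal (1 / 2) := by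
          rw [← ENNReal.ofReal_mul (by linarith)]
          congr 1
          ring
      _ ≤ _ := mul_le_mul_right vol_sT' _

theorem sq_subset {K : Set (ℝ × ℝ)} (hK : Convex ℝ K) (h00 : ((0 : ℝ), (0 : ℝ)) ∈ K)
    (h10 : ((1 : ℝ), (0 : ℝ)) ∈ K) (h11 : ((1 : ℝ), (1 : ℝ)) ∈ K) (h01 : ((0 : ℝ), (1 : ℝ)) ∈ K) :
    Icc (0 : ℝ) 1 ×ˢ Icc (0 : ℝ) 1 ⊆ K := by
  rintro ⟨x, y⟩ ⟨⟨hx0, hx1⟩, ⟨hy0, hy1⟩⟩
  simp only at hx0 hx1 hy0 hy1
  have h : ((x, y) : ℝ × ℝ) ∈ convexHull ℝ {((0 : ℝ), (0 : ℝ)), ((1 : ℝ), (0 : ℝ)),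
      ((1 : ℝ), (1 : ℝ)), ((0 : ℝ), (1 : ℝ))} := by
    apply InQ.mem_hull
    refine ⟨(1 - x) * (1 - y), x * (1 - y), x * y, (1 - x) * y, ?_, ?_, ?_, ?_, ?_, ?_, ?_⟩
    · exact mul_nonneg (by linarith) (by linarith)
    · exact mul_nonneg (by linarith) (by linarith)
    · exact mul_nonneg (by linarith) (by linarith)
    · exact mul_nonneg (by linarith) (by linarith)
    · ring
    · simp
      ring
    · simp
      ring
  refine convexHull_min ?_ hK h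
  intro z hz
  simp only [mem_insert_iff, mem_singleton_iff] at hz
  rcases hz with rfl | rfl | rfl | rfl
  · exact h00
  · exact h10
  · exact h11
  · exact h01

theorem vol_sq : volume (Icc (0 : ℝ) 1 ×ˢ Icc (0 : ℝ) 1) = 1 := by
  rw [Measure.volume_eq_prod, Measure.prod_prod]
  simp

theorem area_lower {K : Set (ℝ × ℝ)} (hK : Convex ℝ K) (h00 : ((0 : ℝ), (0 : ℝ)) ∈ K)
    (h10 : ((1 : ℝ), (0 : ℝ)) ∈ K) (h11 : ((1 : ℝ), (1 : ℝ)) ∈ K) (h01 : ((0 : ℝ), (1 : ℝ)) ∈ K)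
    {d1 d2 d3 d4 x1 y2 x3 y4 : ℝ} (hd1 : 0 ≤ d1) (hd2 : 0 ≤ d2) (hd3 : 0 ≤ d3) (hd4 : 0 ≤ d4)
    (hy2 : 0 ≤ y2) (hy2' : y2 ≤ 1) (hy4 : 0 ≤ y4) (hy4' : y4 ≤ 1)
    (c1 : (x1, -d1) ∈ K) (c2 : (1 + d2, y2) ∈ K) (c3 : (x3, 1 + d3) ∈ K) (c4 : (-d4, y4) ∈ K) :
    ENNReal.ofReal (1 + (d1 + d2 + d3 + d4) / 2) ≤ volume K := by
  have m1 : MeasurableSet {x : ℝ × ℝ | x.2 < 0} := measurableSet_lt measurable_snd measurable_const
  have m3 : MeasurableSet {x : ℝ × ℝ | 1 < x.2} := measurableSet_lt measurable_const measurable_snd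
  have m4 : MeasurableSet {x : ℝ × ℝ | x.1 < 0} := measurableSet_lt measurable_fst measurable_const
  have m2 : MeasurableSet {x : ℝ × ℝ | 1 < x.1} := measurableSet_lt measurable_const measurable_fst
  rw [← measure_inter_add_sdiff (μ := volume) K m1,
    ← measure_inter_add_sdiff (μ := volume) (K \ _) m3,
    ← measure_inter_add_sdiff (μ := volume) ((K \ _) \ _) m4,
    ← measure_inter_add_sdiff (μ := volume) (((K \ _) \ _) \ _) m2]
  have p1 : ENNReal.ofReal (d1 / 2) ≤ volume (K ∩ {x : ℝ × ℝ | x.2 < 0}) := by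
    refine le_trans (le_of_eq ?_) ((vol_piece (0, 0) (1, 0) (x1, -d1)).trans (measure_mono ?_))
    · congr 1
      simp [tr]
    · rintro x ⟨hx1, hx2⟩
      refine ⟨Tri_subset hK h00 h10 c1 hx1, ?_⟩
      have : tr (0, 0) (1, 0) x = x.2 := by simp [tr]
      have hx2' : tr (0, 0) (1, 0) x < 0 := hx2
      rw [this] at hx2'
      exact hx2'
  have p3 : ENNReal.ofReal (d3 / 2) ≤ volume ((K \ {x : ℝ × ℝ | x.2 < 0}) ∩ {x : ℝ × ℝ | 1 < x.2}) := by
    refine le_trans (le_of_eq ?_) ((vol_piece (1, 1) (0, 1) (x3, 1 + d3)).trans (measure_mono ?_))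
    · congr 1
      simp [tr]
    · rintro x ⟨hx1, hx2⟩
      have : tr (1, 1) (0, 1) x = 1 - x.2 := by simp [tr]
      have hx2' : tr (1, 1) (0, 1) x < 0 := hx2
      rw [this] at hx2'
      refine ⟨⟨Tri_subset hK h11 h01 c3 hx1, ?_⟩, ?_⟩
      · show ¬ (x.2 < 0)
        linarith
      · show 1 < x.2
        linarith
  have p4 : ENNReal.ofReal (d4 / 2) ≤ volume (((K \ {x : ℝ × ℝ | x.2 < 0}) \ {x : ℝ × ℝ | 1 < x.2}) ∩
      {x : ℝ × ℝ | x.1 < 0}) := by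
    refine le_trans (le_of_eq ?_) ((vol_piece (0, 1) (0, 0) (-d4, y4)).trans (measure_mono ?_))
    · congr 1
      simp [tr]
    · rintro x ⟨hx1, hx2⟩
      have : tr (0, 1) (0, 0) x = x.1 := by simp [tr]
      have hx2' : tr (0, 1) (0, 0) x < 0 := hx2
      rw [this] at hx2'
      have hxK := Tri_subset hK h01 h00 c4 hx1
      obtain ⟨s, t, hs, ht, hst, rfl⟩ := hx1
      simp only at hx2'
      refine ⟨⟨⟨hxK, ?_⟩, ?_⟩, hx2'⟩
      · show ¬ ((1 : ℝ) + ((0 - 1) * s + (y4 - 1) * t) < 0)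
        nlinarith [mul_nonneg ht hy4]
      · show ¬ ((1 : ℝ) < 1 + ((0 - 1) * s + (y4 - 1) * t))
        nlinarith [mul_nonneg ht (sub_nonneg.mpr hy4')]
  have p2 : ENNReal.ofReal (d2 / 2) ≤ volume ((((K \ {x : ℝ × ℝ | x.2 < 0}) \ {x : ℝ × ℝ | 1 < x.2}) \
      {x : ℝ × ℝ | x.1 < 0}) ∩ {x : ℝ × ℝ | 1 < x.1}) := by
    refine le_trans (le_of_eq ?_) ((vol_piece (1, 0) (1, 1) (1 + d2, y2)).trans (measure_mono ?_))
    · congr 1
      simp [tr]
    · rintro x ⟨hx1, hx2⟩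
      have : tr (1, 0) (1, 1) x = 1 - x.1 := by simp [tr]
      have hx2' : tr (1, 0) (1, 1) x < 0 := hx2
      rw [this] at hx2'
      have hxK := Tri_subset hK h10 h11 c2 hx1
      obtain ⟨s, t, hs, ht, hst, rfl⟩ := hx1
      simp only at hx2'
      refine ⟨⟨⟨⟨hxK, ?_⟩, ?_⟩, ?_⟩, ?_⟩
      · show ¬ ((0 : ℝ) + ((1 - 0) * s + (y2 - 0) * t) < 0)
        nlinarith [mul_nonneg ht hy2]
      · show ¬ ((1 : ℝ) < 0 + ((1 - 0) * s + (y2 - 0) * t))
        nlinarith [mul_nonneg ht (sub_nonneg.mpr hy2')]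
      · show ¬ ((1 : ℝ) + ((1 - 1) * s + (1 + d2 - 1) * t) < 0)
        nlinarith [mul_nonneg ht hd2]
      · show (1 : ℝ) < 1 + ((1 - 1) * s + (1 + d2 - 1) * t)
        linarith
  have p0 : ENNReal.ofReal 1 ≤ volume ((((K \ {x : ℝ × ℝ | x.2 < 0}) \ {x : ℝ × ℝ | 1 < x.2}) \
      {x : ℝ × ℝ | x.1 < 0}) \ {x : ℝ × ℝ | 1 < x.1}) := by
    rw [ENNReal.ofReal_one, ← vol_sq]
    refine measure_mono ?_
    intro x hx
    have hxK := sq_subset hK h00 h10 h11 h01 hx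
    obtain ⟨⟨a1, a2⟩, ⟨a3, a4⟩⟩ := hx
    exact ⟨⟨⟨⟨hxK, not_lt.mpr a3⟩, not_lt.mpr a4⟩, not_lt.mpr a1⟩, not_lt.mpr a2⟩
  have e : ENNReal.ofReal (1 + (d1 + d2 + d3 + d4) / 2) = ENNReal.ofReal (d1 / 2) +
      (ENNReal.ofReal (d3 / 2) + (ENNReal.ofReal (d4 / 2) + (ENNReal.ofReal (d2 / 2) +
      ENNReal.ofReal 1))) := by
    rw [← ENNReal.ofReal_add (by linarith) (by norm_num),
      ← ENNReal.ofReal_add (by linarith) (by linarith),
      ← ENNReal.ofReal_add (by linarith) (by linarith),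
      ← ENNReal.ofReal_add (by linarith) (by linarith)]
    congr 1
    ring
  rw [e]
  exact add_le_add p1 (add_le_add p3 (add_le_add p4 (add_le_add p2 p0)))

end Run7.h417.CQ
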