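import Mathlib

set_option autoImplicit false

/-!
# Minimal circumscribed quadrilaterals (MP_b29168_gt): plane geometry
-/

namespace Run7.h417.CQ

open MeasureTheory Set Filter Topology

/-- cross product -/
def cr (p q : ℝ × ℝ) : ℝ := p.1 * q.2 - p.2 * q.1

/-- twice the signed area of the triangle `p q r` -/
def tr (p q r : ℝ × ℝ) : ℝ := (q.1 - p.1) * (r.2 - p.2) - (q.2 - p.2) * (r.1 - p.1)

/-- `A, B, C, D` are, in counterclockwise order, the vertices of a convex quadrilateral -/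
def Quad (A B C D : ℝ × ℝ) : Prop := 0 < tr A B C ∧ 0 < tr B C D ∧ 0 < tr C D A ∧ 0 < tr D A B

/-- possibly degenerate quadrilaterals -/
def WQ (A B C D : ℝ × ℝ) : Prop := 0 ≤ tr A B C ∧ 0 ≤ tr B C D ∧ 0 ≤ tr C D A ∧ 0 ≤ tr D A B

/-- the area of a quadrilateral -/
noncomputable def ar (A B C D : ℝ × ℝ) : ℝ := (tr A B C + tr C D A) / 2

/-- `x` is a convex combination of `A, B, C, D` -/
def InQ (A B C D x : ℝ × ℝ) : Prop := ∃ a b c d : ℝ, 0 ≤ a ∧ 0 ≤ b ∧ 0 ≤ c ∧ 0 ≤ d ∧
  a + b + c + d = 1 ∧ x.1 = a * A.1 + b * B.1 + c * C.1 + d * D.1 ∧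
  x.2 = a * A.2 + b * B.2 + c * C.2 + d * D.2

/-- `x` is in the four half-planes -/
def HP (A B C D x : ℝ × ℝ) : Prop := 0 ≤ tr A B x ∧ 0 ≤ tr B C x ∧ 0 ≤ tr C D x ∧ 0 ≤ tr D A x

/-- the triangle with the vertices `p, q, r` -/
def Tri (p q r : ℝ × ℝ) : Set (ℝ × ℝ) := {x | ∃ s t : ℝ, 0 ≤ s ∧ 0 ≤ t ∧ s + t ≤ 1 ∧
  x = (p.1 + ((q.1 - p.1) * s + (r.1 - p.1) * t), p.2 + ((q.2 - p.2) * s + (r.2 - p.2) * t))}

theorem Quad.wq {A B C D : ℝ × ℝ} (h : Quad A B C D) : WQ A B C D :=
  ⟨h.1.le, h.2.1.le, h.2.2.1.le, h.2.2.2.le⟩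

theorem Quad.rot {A B C D : ℝ × ℝ} (h : Quad A B C D) : Quad B C D A :=
  ⟨h.2.1, h.2.2.1, h.2.2.2, h.1⟩

theorem ar_rot (A B C D : ℝ × ℝ) : ar B C D A = ar A B C D := by
  unfold ar tr; ring

theorem HP.inQ {A B C D x : ℝ × ℝ} (h : Quad A B C D) (hx : HP A B C D x) : InQ A B C D x := by
  obtain ⟨h1, h2, h3, h4⟩ := h
  obtain ⟨x1, x2, x3, x4⟩ := hx
  rcases le_total (tr A C x) 0 with hh | hh
  · -- triangle ABC
    have e : tr B C x + -tr A C x + tr A B x = tr A B C := by unfold tr; ring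
    refine ⟨tr B C x / tr A B C, -tr A C x / tr A B C, tr A B x / tr A B C, 0,
      div_nonneg x2 h1.le, div_nonneg (by linarith) h1.le, div_nonneg x1 h1.le, le_refl _, ?_, ?_, ?_⟩
    · rw [add_zero, ← add_div, ← add_div, e, div_self h1.ne']
    · have e1 : x.1 * tr A B C = tr B C x * A.1 + -tr A C x * B.1 + tr A B x * C.1 := by
        unfold tr; ring
      field_simp
      linarith
    · have e1 : x.2 * tr A B C = tr B C x * A.2 + -tr A C x * B.2 + tr A B x * C.2 := by
        unfold tr; ring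
      field_simp
      linarith
  · -- triangle ACD
    have e : tr C D x + tr D A x + tr A C x = tr C D A := by unfold tr; ring
    refine ⟨tr C D x / tr C D A, 0, tr D A x / tr C D A, tr A C x / tr C D A,
      div_nonneg x3 h3.le, le_refl _, div_nonneg x4 h3.le, div_nonneg hh h3.le, ?_, ?_, ?_⟩
    · rw [add_zero, ← add_div, ← add_div, e, div_self h3.ne']
    · have e1 : x.1 * tr C D A = tr C D x * A.1 + tr D A x * C.1 + tr A C x * D.1 := by
        unfold tr; ring
      field_simp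
      linarith
    · have e1 : x.2 * tr C D A = tr C D x * A.2 + tr D A x * C.2 + tr A C x * D.2 := by
        unfold tr; ring
      field_simp
      linarith

theorem tr_comb {A B C D x : ℝ × ℝ} {a b c d : ℝ} (hs : a + b + c + d = 1)
    (h1 : x.1 = a * A.1 + b * B.1 + c * C.1 + d * D.1)
    (h2 : x.2 = a * A.2 + b * B.2 + c * C.2 + d * D.2) (p q : ℝ × ℝ) :
    tr p q x = a * tr p q A + b * tr p q B + c * tr p q C + d * tr p q D := by
  have ha : a = 1 - b - c - d := by linarith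
  unfold tr
  rw [h1, h2, ha]
  ring

theorem tr_self_left (p q : ℝ × ℝ) : tr p q p = 0 := by unfold tr; ring

theorem tr_self_right (p q : ℝ × ℝ) : tr p q q = 0 := by unfold tr; ring

theorem tr_cyc (p q r : ℝ × ℝ) : tr p q r = tr q r p := by unfold tr; ring

theorem tr_swap (p q r : ℝ × ℝ) : tr p q r = -tr q p r := by unfold tr; ring

theorem InQ.hp {A B C D x : ℝ × ℝ} (h : WQ A B C D) (hx : InQ A B C D x) : HP A B C D x := by
  obtain ⟨h1, h2, h3, h4⟩ := h
  obtain ⟨a, b, c, d, ha, hb, hc, hd, hs, e1, e2⟩ := hx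
  refine ⟨?_, ?_, ?_, ?_⟩
  · rw [tr_comb hs e1 e2, tr_self_left, tr_self_right]
    have : tr A B D = tr D A B := by rw [tr_cyc D]
    rw [this]
    nlinarith [mul_nonneg hc h1, mul_nonneg hd h4]
  · rw [tr_comb hs e1 e2, tr_self_left, tr_self_right]
    have : tr B C A = tr A B C := by rw [tr_cyc A]
    rw [this]
    nlinarith [mul_nonneg ha h1, mul_nonneg hd h2]
  · rw [tr_comb hs e1 e2, tr_self_left, tr_self_right]
    have : tr C D B = tr B C D := by rw [tr_cyc B]
    rw [this]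
    nlinarith [mul_nonneg ha h3, mul_nonneg hb h2]
  · rw [tr_comb hs e1 e2, tr_self_left, tr_self_right]
    have : tr D A C = tr C D A := by rw [tr_cyc C]
    rw [this]
    nlinarith [mul_nonneg hb h4, mul_nonneg hc h3]

theorem InQ.mem_hull {A B C D x : ℝ × ℝ} (hx : InQ A B C D x) : x ∈ convexHull ℝ {A, B, C, D} := by
  obtain ⟨a, b, c, d, ha, hb, hc, hd, hs, e1, e2⟩ := hx
  have hcv := convex_convexHull ℝ ({A, B, C, D} : Set (ℝ × ℝ))
  have mem : ∀ y ∈ ({A, B, C, D} : Set (ℝ × ℝ)), y ∈ convexHull ℝ ({A, B, C, D} : Set (ℝ × ℝ)) :=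
    fun y hy => subset_convexHull ℝ _ hy
  have key := hcv.sum_mem (t := Finset.univ) (w := ![a, b, c, d]) (z := ![A, B, C, D])
    (by
      intro i _
      fin_cases i <;> simp [ha, hb, hc, hd])
    (by simp [Fin.sum_univ_four, hs])
    (by
      intro i _
      fin_cases i
      · exact mem A (by simp)
      · exact mem B (by simp)
      · exact mem C (by simp)
      · exact mem D (by simp))
  have e : ∑ i, (![a, b, c, d] : Fin 4 → ℝ) i • (![A, B, C, D] : Fin 4 → ℝ × ℝ) i = x := by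
    rw [Fin.sum_univ_four]
    ext
    · simp [e1]
    · simp [e2]
  rwa [e] at key

theorem hull_hp {A B C D : ℝ × ℝ} (h : WQ A B C D) :
    convexHull ℝ {A, B, C, D} ⊆ {x | HP A B C D x} := by
  obtain ⟨h1, h2, h3, h4⟩ := h
  refine convexHull_min ?_ ?_
  · intro x hx
    simp only [mem_insert_iff, mem_singleton_iff] at hx
    rcases hx with rfl | rfl | rfl | rfl
    · refine ⟨(tr_self_left _ _).ge, ?_, ?_, (tr_self_right _ _).ge⟩
      · rw [← tr_cyc]; exact h1
      · exact h3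
    · refine ⟨(tr_self_right _ _).ge, (tr_self_left _ _).ge, ?_, ?_⟩
      · rw [← tr_cyc]; exact h2
      · exact h4
    · refine ⟨h1, (tr_self_right _ _).ge, (tr_self_left _ _).ge, ?_⟩
      rw [← tr_cyc]; exact h3
    · refine ⟨?_, h2, (tr_self_right _ _).ge, (tr_self_left _ _).ge⟩
      rw [← tr_cyc]; exact h4
  · have lin : ∀ p q : ℝ × ℝ, Convex ℝ {x | 0 ≤ tr p q x} := by
      intro p q x hx y hy a b ha hb hab
      simp only [mem_ofPred_eq] at hx hy ⊢
      have e : tr p q (a • x + b • y) = a * tr p q x + b * tr p q y := by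
        have hb' : b = 1 - a := by linarith
        unfold tr
        rw [hb']
        simp
        ring
      rw [e]
      positivity
    have : {x | HP A B C D x} = {x | 0 ≤ tr A B x} ∩ {x | 0 ≤ tr B C x} ∩ {x | 0 ≤ tr C D x} ∩
        {x | 0 ≤ tr D A x} := by
      ext x
      simp [HP, and_assoc]
    rw [this]
    exact (((lin A B).inter (lin B C)).inter (lin C D)).inter (lin D A)

/-! ### areas -/

/-- the standard triangle -/
def sT : Set (ℝ × ℝ) := {x | 0 ≤ x.1 ∧ 0 ≤ x.2 ∧ x.1 + x.2 ≤ 1}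

theorem sT_meas : MeasurableSet sT := by
  have : IsClosed sT := by
    have h1 : IsClosed {x : ℝ × ℝ | 0 ≤ x.1} := isClosed_le continuous_const continuous_fst
    have h2 : IsClosed {x : ℝ × ℝ | 0 ≤ x.2} := isClosed_le continuous_const continuous_snd
    have h3 : IsClosed {x : ℝ × ℝ | x.1 + x.2 ≤ 1} :=
      isClosed_le (continuous_fst.add continuous_snd) continuous_const
    exact h1.inter (h2.inter h3)
  exact this.measurableSet

theorem vol_sT : volume sT = ENNReal.ofReal (1 / 2) := by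
  rw [Measure.volume_eq_prod, Measure.prod_apply sT_meas]
  have h1 : ∀ x : ℝ, volume (Prod.mk x ⁻¹' sT) =
      (Icc (0 : ℝ) 1).indicator (fun x => ENNReal.ofReal (1 - x)) x := by
    intro x
    by_cases hx : x ∈ Icc (0 : ℝ) 1
    · rw [indicator_of_mem hx]
      have : Prod.mk x ⁻¹' sT = Icc 0 (1 - x) := by
        ext y
        simp only [sT, mem_preimage, mem_ofPred_eq, mem_Icc]
        constructor
        · rintro ⟨_, h2, h3⟩
          exact ⟨h2, by linarith⟩
        · rintro ⟨h2, h3⟩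
          exact ⟨hx.1, h2, by linarith⟩
      rw [this, Real.volume_Icc, sub_zero]
    · rw [indicator_of_notMem hx]
      have : Prod.mk x ⁻¹' sT = ∅ := by
        ext y
        simp only [sT, mem_preimage, mem_ofPred_eq, mem_empty_iff_false, iff_false]
        rintro ⟨h1, h2, h3⟩
        exact hx ⟨h1, by linarith⟩
      rw [this, measure_empty]
  simp_rw [h1]
  rw [lintegral_indicator measurableSet_Icc, ← ofReal_integral_eq_lintegral_ofReal]
  · congr 1
    rw [integral_Icc_eq_integral_Ioc, ← intervalIntegral.integral_of_le zero_le_one,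
      intervalIntegral.integral_sub (by simp) (by simp)]
    simp
    norm_num
  · exact (Continuous.integrableOn_Icc (by fun_prop))
  · filter_upwards [ae_restrict_mem measurableSet_Icc] with x hx
    simp only [Pi.zero_apply]
    linarith [hx.2]

/-- the linear map with the columns `e`, `f` -/
noncomputable def LM (e f : ℝ × ℝ) : ℝ × ℝ →ₗ[ℝ] ℝ × ℝ :=
  Matrix.toLin (Module.Basis.finTwoProd ℝ) (Module.Basis.finTwoProd ℝ) !![e.1, f.1; e.2, f.2]

theorem LM_apply (e f x : ℝ × ℝ) : LM e f x = (e.1 * x.1 + f.1 * x.2, e.2 * x.1 + f.2 * x.2) :=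
  Matrix.toLin_finTwoProd_apply _ _ _ _ _

theorem LM_det (e f : ℝ × ℝ) : LinearMap.det (LM e f) = cr e f := by
  unfold LM cr
  rw [LinearMap.det_toLin, Matrix.det_fin_two_of]
  ring

theorem vol_affine (p e f : ℝ × ℝ) (s : Set (ℝ × ℝ)) :
    volume ((fun x : ℝ × ℝ => (p.1 + (e.1 * x.1 + f.1 * x.2), p.2 + (e.2 * x.1 + f.2 * x.2))) '' s) =
      ENNReal.ofReal |cr e f| * volume s := by
  have h1 : ((fun x : ℝ × ℝ => (p.1 + (e.1 * x.1 + f.1 * x.2), p.2 + (e.2 * x.1 + f.2 * x.2))) '' s) =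
      (fun y => p + y) '' (LM e f '' s) := by
    rw [image_image]
    refine image_congr fun x _ => ?_
    rw [LM_apply]
    rfl
  rw [h1, image_add_left, measure_preimage_add, Measure.addHaar_image_linearMap, LM_det]

theorem Tri_eq (p q r : ℝ × ℝ) : Tri p q r =
    (fun x : ℝ × ℝ => (p.1 + ((q - p).1 * x.1 + (r - p).1 * x.2),
      p.2 + ((q - p).2 * x.1 + (r - p).2 * x.2))) '' sT := by
  ext x
  constructor
  · rintro ⟨s, t, hs, ht, hst, rfl⟩
    exact ⟨(s, t), ⟨hs, ht, hst⟩, rfl⟩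
  · rintro ⟨⟨s, t⟩, ⟨hs, ht, hst⟩, rfl⟩
    exact ⟨s, t, hs, ht, hst, rfl⟩

theorem vol_Tri (p q r : ℝ × ℝ) : volume (Tri p q r) = ENNReal.ofReal (|tr p q r| / 2) := by
  rw [Tri_eq, vol_affine, vol_sT, ← ENNReal.ofReal_mul (abs_nonneg _)]
  congr 1
  have : cr (q - p) (r - p) = tr p q r := rfl
  rw [this]
  ring

theorem Tri_subset {K : Set (ℝ × ℝ)} (hK : Convex ℝ K) {p q r : ℝ × ℝ} (hp : p ∈ K) (hq : q ∈ K)
    (hr : r ∈ K) : Tri p q r ⊆ K := by
  rintro x ⟨s, t, hs, ht, hst, rfl⟩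
  have key := hK.sum_mem (t := Finset.univ) (w := ![1 - s - t, s, t]) (z := ![p, q, r])
    (by
      intro i _
      fin_cases i
      · show 0 ≤ 1 - s - t
        linarith
      · exact hs
      · exact ht)
    (by simp [Fin.sum_univ_three]; ring)
    (by
      intro i _
      fin_cases i
      · exact hp
      · exact hq
      · exact hr)
  have e : ∑ i, (![1 - s - t, s, t] : Fin 3 → ℝ) i • (![p, q, r] : Fin 3 → ℝ × ℝ) i =
      (p.1 + ((q.1 - p.1) * s + (r.1 - p.1) * t), p.2 + ((q.2 - p.2) * s + (r.2 - p.2) * t)) := by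
    rw [Fin.sum_univ_three]
    ext
    · simp
      ring
    · simp
      ring
  rwa [e] at key

/-- a point in the three half-planes is in the triangle -/
theorem mem_Tri {A B C x : ℝ × ℝ} (h : 0 < tr A B C) (h1 : 0 ≤ tr A B x) (h2 : 0 ≤ tr B C x)
    (h3 : tr A C x ≤ 0) : x ∈ Tri A B C := by
  refine ⟨-tr A C x / tr A B C, tr A B x / tr A B C, div_nonneg (by linarith) h.le,
    div_nonneg h1 h.le, ?_, ?_⟩
  · rw [← add_div, div_le_one h]
    have e : tr B C x + -tr A C x + tr A B x = tr A B C := by unfold tr; ring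
    linarith
  · have hne := h.ne'
    ext
    · show x.1 = A.1 + ((B.1 - A.1) * (-tr A C x / tr A B C) + (C.1 - A.1) * (tr A B x / tr A B C))
      field_simp
      unfold tr
      ring
    · show x.2 = A.2 + ((B.2 - A.2) * (-tr A C x / tr A B C) + (C.2 - A.2) * (tr A B x / tr A B C))
      field_simp
      unfold tr
      ring

theorem vol_hull_le {A B C D : ℝ × ℝ} (h : Quad A B C D) :
    volume (convexHull ℝ {A, B, C, D}) ≤ ENNReal.ofReal (ar A B C D) := by
  have hsub : convexHull ℝ {A, B, C, D} ⊆ Tri A B C ∪ Tri C D A := by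
    intro x hx
    obtain ⟨x1, x2, x3, x4⟩ := hull_hp h.wq hx
    rcases le_total (tr A C x) 0 with hh | hh
    · exact Or.inl (mem_Tri h.1 x1 x2 hh)
    · refine Or.inr (mem_Tri h.2.2.1 x3 x4 ?_)
      rw [tr_swap]
      linarith
  refine (measure_mono hsub).trans ((measure_union_le _ _).trans ?_)
  rw [vol_Tri, vol_Tri, ← ENNReal.ofReal_add (by positivity) (by positivity), abs_of_pos h.1,
    abs_of_pos h.2.2.1]
  refine le_of_eq ?_
  congr 1
  unfold ar
  ring

end Run7.h417.CQ
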