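import Pool.Agent.Run7.h417.CQ.Ex

set_option autoImplicit false

/-!
# Minimal circumscribed quadrilaterals (MP_b29168_gt): degenerate minimal quadrilaterals
-/

namespace Run7.h417.CQ

open MeasureTheory Set Filter Topology

/-- cutting off a corner -/
theorem cut_corner {P Q R : ℝ × ℝ} (hT : 0 < tr P Q R) {K : Set (ℝ × ℝ)} (hK : IsCompact K)
    (hin : ∀ x ∈ K, 0 ≤ tr P Q x ∧ 0 ≤ tr Q R x ∧ 0 ≤ tr R P x) (hR : R ∉ K) :
    ∃ A B C D : ℝ × ℝ, Quad A B C D ∧ (∀ x ∈ K, HP A B C D x) ∧ ar A B C D < tr P Q R / 2 := by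
  have hlt : ∀ x ∈ K, tr P Q x < tr P Q R := by
    intro x hx
    obtain ⟨h1, h2, h3⟩ := hin x hx
    have e : tr P Q x + tr Q R x + tr R P x = tr P Q R := by unfold tr; ring
    by_contra hcon
    push Not at hcon
    have a2 : tr Q R x = 0 := by linarith
    have a3 : tr R P x = 0 := by linarith
    have a1 : tr P Q x = tr P Q R := by linarith
    apply hR
    have e1 : x.1 * tr P Q R = tr Q R x * P.1 + tr R P x * Q.1 + tr P Q x * R.1 := by
      unfold tr; ring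
    have e2 : x.2 * tr P Q R = tr Q R x * P.2 + tr R P x * Q.2 + tr P Q x * R.2 := by
      unfold tr; ring
    rw [a1, a2, a3] at e1 e2
    have f1 : (x.1 - R.1) * tr P Q R = 0 := by linarith
    have f2 : (x.2 - R.2) * tr P Q R = 0 := by linarith
    have g1 : x.1 = R.1 := by
      rcases mul_eq_zero.mp f1 with h | h
      · linarith
      · exact absurd h hT.ne'
    have g2 : x.2 = R.2 := by
      rcases mul_eq_zero.mp f2 with h | h
      · linarith
      · exact absurd h hT.ne'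
    have : x = R := by ext <;> assumption
    rwa [← this]
  obtain ⟨l, hl0, hl1, hl⟩ : ∃ l : ℝ, 0 < l ∧ l ≤ 1 / 2 ∧ ∀ x ∈ K,
      tr P Q x ≤ (1 - l) * tr P Q R := by
    rcases K.eq_empty_or_nonempty with hem | hne
    · exact ⟨1 / 2, by norm_num, le_refl _, fun x hx => by
        rw [hem] at hx; exact absurd hx (notMem_empty x)⟩
    · have hc : Continuous (fun x : ℝ × ℝ => tr P Q x) := by unfold tr; fun_prop
      obtain ⟨y, hy, hmax⟩ := hK.exists_isMaxOn hne hc.continuousOn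
      have hmax' : ∀ x ∈ K, tr P Q x ≤ tr P Q y := fun x hx => hmax hx
      have h1 := hlt y hy
      have h0 := (hin y hy).1
      refine ⟨(tr P Q R - tr P Q y) / (2 * tr P Q R), div_pos (by linarith) (by linarith), ?_, ?_⟩
      · rw [div_le_iff₀ (by linarith)]
        linarith
      · intro x hx
        have h2 := hmax' x hx
        have e : (1 - (tr P Q R - tr P Q y) / (2 * tr P Q R)) * tr P Q R =
            (tr P Q R + tr P Q y) / 2 := by
          field_simp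
          ring
        rw [e]
        linarith
  have s2 : ∀ x : ℝ × ℝ, tr Q (R.1 + l * (Q.1 - R.1), R.2 + l * (Q.2 - R.2)) x =
      (1 - l) * tr Q R x := by
    intro x; unfold tr; ring
  have s3 : ∀ x : ℝ × ℝ, tr (R.1 + l * (Q.1 - R.1), R.2 + l * (Q.2 - R.2))
      (R.1 + l * (P.1 - R.1), R.2 + l * (P.2 - R.2)) x =
      l * ((1 - l) * tr P Q R - tr P Q x) := by
    intro x; unfold tr; ring
  have s4 : ∀ x : ℝ × ℝ, tr (R.1 + l * (P.1 - R.1), R.2 + l * (P.2 - R.2)) P x =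
      (1 - l) * tr R P x := by
    intro x; unfold tr; ring
  refine ⟨P, Q, (R.1 + l * (Q.1 - R.1), R.2 + l * (Q.2 - R.2)),
    (R.1 + l * (P.1 - R.1), R.2 + l * (P.2 - R.2)), ⟨?_, ?_, ?_, ?_⟩, ?_, ?_⟩
  · have e : tr P Q (R.1 + l * (Q.1 - R.1), R.2 + l * (Q.2 - R.2)) = (1 - l) * tr P Q R := by
      unfold tr; ring
    rw [e]
    exact mul_pos (by linarith) hT
  · rw [s2]
    have e : tr Q R (R.1 + l * (P.1 - R.1), R.2 + l * (P.2 - R.2)) = l * tr P Q R := by
      unfold tr; ring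
    rw [e]
    exact mul_pos (by linarith) (mul_pos hl0 hT)
  · rw [s3, tr_self_left, sub_zero]
    exact mul_pos hl0 (mul_pos (by linarith) hT)
  · rw [s4, tr_cyc]
    exact mul_pos (by linarith) hT
  · intro x hx
    obtain ⟨h1, h2, h3⟩ := hin x hx
    refine ⟨h1, ?_, ?_, ?_⟩
    · rw [s2]
      exact mul_nonneg (by linarith) h2
    · rw [s3]
      exact mul_nonneg hl0.le (by linarith [hl x hx])
    · rw [s4]
      exact mul_nonneg (by linarith) h3
  · have e : ar P Q (R.1 + l * (Q.1 - R.1), R.2 + l * (Q.2 - R.2))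
        (R.1 + l * (P.1 - R.1), R.2 + l * (P.2 - R.2)) = (1 - l ^ 2) * tr P Q R / 2 := by
      unfold ar tr
      ring
    rw [e]
    have : 0 < l ^ 2 * tr P Q R := by positivity
    linarith

/-- the case of a minimal triangle -/
theorem tri_case {P Q R : ℝ × ℝ} (hT : 0 < tr P Q R) {K : Set (ℝ × ℝ)} (hK : IsCompact K)
    (hconv : Convex ℝ K) (hvol : volume K = 1)
    (hin : ∀ x ∈ K, 0 ≤ tr P Q x ∧ 0 ≤ tr Q R x ∧ 0 ≤ tr R P x)
    (hmin : ∀ A' B' C' D' : ℝ × ℝ, Quad A' B' C' D' → (∀ x ∈ K, HP A' B' C' D' x) →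
      tr P Q R / 2 ≤ ar A' B' C' D') :
    ∃ A B C D : ℝ × ℝ, Quad A B C D ∧ (∀ x ∈ K, HP A B C D x) ∧ ar A B C D ≤ 11 / 10 := by
  have hRK : R ∈ K := by
    by_contra h
    obtain ⟨A, B, C, D, h1, h2, h3⟩ := cut_corner hT hK hin h
    exact absurd (hmin A B C D h1 h2) (not_le.mpr h3)
  have hT2 : 0 < tr Q R P := by rw [← tr_cyc]; exact hT
  have hT3 : 0 < tr R P Q := by rw [← tr_cyc]; exact hT2
  have hPK : P ∈ K := by
    by_contra h
    obtain ⟨A, B, C, D, h1, h2, h3⟩ := cut_corner hT2 hK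
      (fun x hx => ⟨(hin x hx).2.1, (hin x hx).2.2, (hin x hx).1⟩) h
    rw [← tr_cyc P Q R] at h3
    exact absurd (hmin A B C D h1 h2) (not_le.mpr h3)
  have hQK : Q ∈ K := by
    by_contra h
    obtain ⟨A, B, C, D, h1, h2, h3⟩ := cut_corner hT3 hK
      (fun x hx => ⟨(hin x hx).2.2, (hin x hx).1, (hin x hx).2.1⟩) h
    rw [tr_cyc R P Q] at h3
    exact absurd (hmin A B C D h1 h2) (not_le.mpr h3)
  have hle : tr P Q R ≤ 2 := by
    have h1 := measure_mono (μ := volume) (Tri_subset hconv hPK hQK hRK)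
    rw [vol_Tri, hvol, abs_of_pos hT, ENNReal.ofReal_le_one] at h1
    linarith
  obtain ⟨W, hW⟩ : ∃ W : ℝ × ℝ, W = ((P.1 + R.1) / 2 - (Q.1 - (P.1 + R.1) / 2) / 10,
    (P.2 + R.2) / 2 - (Q.2 - (P.2 + R.2) / 2) / 10) := ⟨_, rfl⟩
  have w3 : tr Q R W = 11 / 20 * tr P Q R := by
    rw [hW]; unfold tr; ring
  have w4 : tr W P Q = 11 / 20 * tr P Q R := by
    rw [hW]; unfold tr; ring
  have w5 : tr R W P = 1 / 10 * tr P Q R := by
    rw [hW]; unfold tr; ring
  have hQd : Quad P Q R W := by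
    refine ⟨hT, ?_, ?_, ?_⟩
    · rw [w3]; positivity
    · rw [w5]; positivity
    · rw [w4]; positivity
  refine ⟨P, Q, R, W, hQd, ?_, ?_⟩
  · intro x hx
    obtain ⟨h1, h2, h3⟩ := hin x hx
    apply InQ.hp hQd.wq
    have e : tr P Q x + tr Q R x + tr R P x = tr P Q R := by unfold tr; ring
    refine ⟨tr Q R x / tr P Q R, tr R P x / tr P Q R, tr P Q x / tr P Q R, 0,
      div_nonneg h2 hT.le, div_nonneg h3 hT.le, div_nonneg h1 hT.le, le_refl _, ?_, ?_, ?_⟩
    · rw [add_zero, ← add_div, ← add_div, div_eq_one_iff_eq hT.ne']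
      linarith
    · have e1 : x.1 * tr P Q R = tr Q R x * P.1 + tr R P x * Q.1 + tr P Q x * R.1 := by
        unfold tr; ring
      field_simp
      linarith
    · have e1 : x.2 * tr P Q R = tr Q R x * P.2 + tr R P x * Q.2 + tr P Q x * R.2 := by
        unfold tr; ring
      field_simp
      linarith
  · unfold ar
    rw [w5]
    linarith

theorem deg0 {A B C D : ℝ × ℝ} (hW : WQ A B C D) (h0 : tr D A B = 0) {K : Set (ℝ × ℝ)}
    (hK : IsCompact K) (hconv : Convex ℝ K) (hvol : volume K = 1) (hin : ∀ x ∈ K, InQ A B C D x)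
    (hmin : ∀ A' B' C' D' : ℝ × ℝ, Quad A' B' C' D' → (∀ x ∈ K, HP A' B' C' D' x) →
      ar A B C D ≤ ar A' B' C' D') {p q r : ℝ × ℝ} (hp : p ∈ K) (hq : q ∈ K) (hr : r ∈ K)
    (hpqr : 0 < tr p q r) :
    ∃ A B C D : ℝ × ℝ, Quad A B C D ∧ (∀ x ∈ K, HP A B C D x) ∧ ar A B C D ≤ 11 / 10 := by
  have hpos : 0 < 2 * ar A B C D := by
    have : |tr p q r| ≤ 2 * ar A B C D :=
      abs_tr_le (hin r hr) (vertex_le hW (Or.inl rfl) (hin p hp) (hin q hq))
        (vertex_le hW (Or.inr (Or.inl rfl)) (hin p hp) (hin q hq))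
        (vertex_le hW (Or.inr (Or.inr (Or.inl rfl))) (hin p hp) (hin q hq))
        (vertex_le hW (Or.inr (Or.inr (Or.inr rfl))) (hin p hp) (hin q hq))
    exact (abs_pos_of_pos hpqr).trans_le this
  have e : 2 * ar A B C D = tr B C D := by
    have : 2 * ar A B C D = tr B C D + tr D A B := by unfold ar tr; ring
    rw [this, h0, add_zero]
  have hT : 0 < tr B C D := by rw [← e]; exact hpos
  refine tri_case hT hK hconv hvol ?_ ?_
  · intro x hx
    obtain ⟨h1, h2, h3, h4⟩ := (hin x hx).hp hW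
    refine ⟨h2, h3, ?_⟩
    obtain ⟨a, b, c, d, ha, hb, hc, hd, hs, e1, e2⟩ := hin x hx
    rw [tr_comb hs e1 e2, tr_self_left, tr_self_right]
    have e3 : tr D B A = 0 := by
      have : tr D B A = -tr D A B := by unfold tr; ring
      rw [this, h0, neg_zero]
    have e4 : tr D B C = tr B C D := by rw [tr_cyc]
    rw [e3, e4]
    have := mul_nonneg hc hT.le
    linarith
  · intro A' B' C' D' h1 h2
    have := hmin A' B' C' D' h1 h2
    linarith

theorem WQ.rot {A B C D : ℝ × ℝ} (h : WQ A B C D) : WQ B C D A :=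
  ⟨h.2.1, h.2.2.1, h.2.2.2, h.1⟩

theorem InQ.rot {A B C D x : ℝ × ℝ} (h : InQ A B C D x) : InQ B C D A x := by
  obtain ⟨a, b, c, d, ha, hb, hc, hd, hs, e1, e2⟩ := h
  exact ⟨b, c, d, a, hb, hc, hd, ha, by linarith, by linarith, by linarith⟩

theorem deg {A B C D : ℝ × ℝ} (hW : WQ A B C D) (hn : ¬ Quad A B C D) {K : Set (ℝ × ℝ)}
    (hK : IsCompact K) (hconv : Convex ℝ K) (hvol : volume K = 1) (hin : ∀ x ∈ K, InQ A B C D x)
    (hmin : ∀ A' B' C' D' : ℝ × ℝ, Quad A' B' C' D' → (∀ x ∈ K, HP A' B' C' D' x) →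
      ar A B C D ≤ ar A' B' C' D') {p q r : ℝ × ℝ} (hp : p ∈ K) (hq : q ∈ K) (hr : r ∈ K)
    (hpqr : 0 < tr p q r) :
    ∃ A B C D : ℝ × ℝ, Quad A B C D ∧ (∀ x ∈ K, HP A B C D x) ∧ ar A B C D ≤ 11 / 10 := by
  by_cases h4 : tr D A B = 0
  · exact deg0 hW h4 hK hconv hvol hin hmin hp hq hr hpqr
  by_cases h1 : tr A B C = 0
  · refine deg0 hW.rot h1 hK hconv hvol (fun x hx => (hin x hx).rot) ?_ hp hq hr hpqr
    intro A' B' C' D' g1 g2
    rw [ar_rot]
    exact hmin A' B' C' D' g1 g2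
  by_cases h2 : tr B C D = 0
  · refine deg0 hW.rot.rot h2 hK hconv hvol (fun x hx => (hin x hx).rot.rot) ?_ hp hq hr hpqr
    intro A' B' C' D' g1 g2
    rw [ar_rot, ar_rot]
    exact hmin A' B' C' D' g1 g2
  by_cases h3 : tr C D A = 0
  · refine deg0 hW.rot.rot.rot h3 hK hconv hvol (fun x hx => (hin x hx).rot.rot.rot) ?_ hp hq hr hpqr
    intro A' B' C' D' g1 g2
    rw [ar_rot, ar_rot, ar_rot]
    exact hmin A' B' C' D' g1 g2
  exact absurd ⟨lt_of_le_of_ne hW.1 (Ne.symm h1), lt_of_le_of_ne hW.2.1 (Ne.symm h2),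
    lt_of_le_of_ne hW.2.2.1 (Ne.symm h3), lt_of_le_of_ne hW.2.2.2 (Ne.symm h4)⟩ hn

end Run7.h417.CQ
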