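import Pool.Agent.Run7.h417.CQ.Basic

set_option autoImplicit false

/-!
# Minimal circumscribed quadrilaterals (MP_b29168_gt): existence of a minimal quadrilateral
-/

namespace Run7.h417.CQ

open MeasureTheory Set Filter Topology

theorem closed_inQ (x : ℝ × ℝ) :
    IsClosed {v : Fin 4 → ℝ × ℝ | InQ (v 0) (v 1) (v 2) (v 3) x} := by
  have hZ : IsClosed {y : stdSimplex ℝ (Fin 4) × (Fin 4 → ℝ × ℝ) |
      x.1 = y.1.1 0 * (y.2 0).1 + y.1.1 1 * (y.2 1).1 + y.1.1 2 * (y.2 2).1 + y.1.1 3 * (y.2 3).1 ∧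
      x.2 = y.1.1 0 * (y.2 0).2 + y.1.1 1 * (y.2 1).2 + y.1.1 2 * (y.2 2).2 + y.1.1 3 * (y.2 3).2} := by
    have c1 : Continuous (fun y : stdSimplex ℝ (Fin 4) × (Fin 4 → ℝ × ℝ) =>
        y.1.1 0 * (y.2 0).1 + y.1.1 1 * (y.2 1).1 + y.1.1 2 * (y.2 2).1 + y.1.1 3 * (y.2 3).1) := by
      have hw : Continuous (fun y : stdSimplex ℝ (Fin 4) × (Fin 4 → ℝ × ℝ) => y.1.1) :=
        continuous_subtype_val.comp continuous_fst
      have hwi : ∀ i, Continuous (fun y : stdSimplex ℝ (Fin 4) × (Fin 4 → ℝ × ℝ) => y.1.1 i) :=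
        fun i => (continuous_apply i).comp hw
      have hvi : ∀ i, Continuous (fun y : stdSimplex ℝ (Fin 4) × (Fin 4 → ℝ × ℝ) => (y.2 i).1) :=
        fun i => continuous_fst.comp ((continuous_apply i).comp continuous_snd)
      exact ((((hwi 0).mul (hvi 0)).add ((hwi 1).mul (hvi 1))).add ((hwi 2).mul (hvi 2))).add
        ((hwi 3).mul (hvi 3))
    have c2 : Continuous (fun y : stdSimplex ℝ (Fin 4) × (Fin 4 → ℝ × ℝ) =>
        y.1.1 0 * (y.2 0).2 + y.1.1 1 * (y.2 1).2 + y.1.1 2 * (y.2 2).2 + y.1.1 3 * (y.2 3).2) := by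
      have hw : Continuous (fun y : stdSimplex ℝ (Fin 4) × (Fin 4 → ℝ × ℝ) => y.1.1) :=
        continuous_subtype_val.comp continuous_fst
      have hwi : ∀ i, Continuous (fun y : stdSimplex ℝ (Fin 4) × (Fin 4 → ℝ × ℝ) => y.1.1 i) :=
        fun i => (continuous_apply i).comp hw
      have hvi : ∀ i, Continuous (fun y : stdSimplex ℝ (Fin 4) × (Fin 4 → ℝ × ℝ) => (y.2 i).2) :=
        fun i => continuous_snd.comp ((continuous_apply i).comp continuous_snd)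
      exact ((((hwi 0).mul (hvi 0)).add ((hwi 1).mul (hvi 1))).add ((hwi 2).mul (hvi 2))).add
        ((hwi 3).mul (hvi 3))
    exact (isClosed_eq continuous_const c1).inter (isClosed_eq continuous_const c2)
  have h := isClosedMap_snd_of_compactSpace _ hZ
  convert h using 1
  ext v
  constructor
  · rintro ⟨a, b, c, d, ha, hb, hc, hd, hs, e1, e2⟩
    refine ⟨(⟨![a, b, c, d], ?_, ?_⟩, v), ⟨?_, ?_⟩, rfl⟩
    · intro i
      fin_cases i
      · exact ha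
      · exact hb
      · exact hc
      · exact hd
    · rw [Fin.sum_univ_four]
      exact hs
    · exact e1
    · exact e2
  · rintro ⟨⟨w, v'⟩, ⟨e1, e2⟩, rfl⟩
    have hw := w.2
    have hs : ∑ i, w.1 i = 1 := hw.2
    rw [Fin.sum_univ_four] at hs
    exact ⟨w.1 0, w.1 1, w.1 2, w.1 3, hw.1 0, hw.1 1, hw.1 2, hw.1 3, hs, e1, e2⟩

theorem closed_wq : IsClosed {v : Fin 4 → ℝ × ℝ | WQ (v 0) (v 1) (v 2) (v 3)} := by
  have c : ∀ i j k : Fin 4, IsClosed {v : Fin 4 → ℝ × ℝ | 0 ≤ tr (v i) (v j) (v k)} := fun i j k =>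
    isClosed_le continuous_const (by unfold tr; fun_prop)
  exact (c 0 1 2).inter ((c 1 2 3).inter ((c 2 3 0).inter (c 3 0 1)))

theorem cont_ar : Continuous (fun v : Fin 4 → ℝ × ℝ => ar (v 0) (v 1) (v 2) (v 3)) := by
  unfold ar tr
  fun_prop

theorem tr_le {A B C D : ℝ × ℝ} (h : WQ A B C D) {P Q R : ℝ × ℝ}
    (hP : P = A ∨ P = B ∨ P = C ∨ P = D) (hQ : Q = A ∨ Q = B ∨ Q = C ∨ Q = D)
    (hR : R = A ∨ R = B ∨ R = C ∨ R = D) : |tr P Q R| ≤ 2 * ar A B C D := by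
  obtain ⟨h1, h2, h3, h4⟩ := h
  have e : 2 * ar A B C D = tr A B C + tr C D A := by unfold ar; ring
  rw [e]
  unfold tr at *
  rcases hP with rfl | rfl | rfl | rfl <;> rcases hQ with rfl | rfl | rfl | rfl <;>
    rcases hR with rfl | rfl | rfl | rfl <;> rw [abs_le] <;> constructor <;> linarith

theorem abs_tr_le {A B C D x s t : ℝ × ℝ} (hx : InQ A B C D x) {N : ℝ} (h1 : |tr s t A| ≤ N)
    (h2 : |tr s t B| ≤ N) (h3 : |tr s t C| ≤ N) (h4 : |tr s t D| ≤ N) : |tr s t x| ≤ N := by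
  obtain ⟨a, b, c, d, ha, hb, hc, hd, hs, e1, e2⟩ := hx
  rw [tr_comb hs e1 e2]
  rw [abs_le] at *
  have e : N = a * N + b * N + c * N + d * N := by
    rw [← add_mul, ← add_mul, ← add_mul, hs, one_mul]
  have u1 := mul_le_mul_of_nonneg_left h1.1 ha
  have u2 := mul_le_mul_of_nonneg_left h2.1 hb
  have u3 := mul_le_mul_of_nonneg_left h3.1 hc
  have u4 := mul_le_mul_of_nonneg_left h4.1 hd
  have v1 := mul_le_mul_of_nonneg_left h1.2 ha
  have v2 := mul_le_mul_of_nonneg_left h2.2 hb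
  have v3 := mul_le_mul_of_nonneg_left h3.2 hc
  have v4 := mul_le_mul_of_nonneg_left h4.2 hd
  constructor
  · linarith
  · linarith

theorem vertex_le {A B C D : ℝ × ℝ} (h : WQ A B C D) {X p q : ℝ × ℝ}
    (hX : X = A ∨ X = B ∨ X = C ∨ X = D) (hp : InQ A B C D p) (hq : InQ A B C D q) :
    |tr p q X| ≤ 2 * ar A B C D := by
  have step : ∀ Y : ℝ × ℝ, (Y = A ∨ Y = B ∨ Y = C ∨ Y = D) → |tr X p Y| ≤ 2 * ar A B C D := by
    intro Y hY
    rw [tr_cyc, tr_cyc]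
    refine abs_tr_le hp ?_ ?_ ?_ ?_
    · exact tr_le h hY hX (Or.inl rfl)
    · exact tr_le h hY hX (Or.inr (Or.inl rfl))
    · exact tr_le h hY hX (Or.inr (Or.inr (Or.inl rfl)))
    · exact tr_le h hY hX (Or.inr (Or.inr (Or.inr rfl)))
  rw [tr_cyc, tr_cyc]
  refine abs_tr_le hq ?_ ?_ ?_ ?_
  · exact step _ (Or.inl rfl)
  · exact step _ (Or.inr (Or.inl rfl))
  · exact step _ (Or.inr (Or.inr (Or.inl rfl)))
  · exact step _ (Or.inr (Or.inr (Or.inr rfl)))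

/-- a vertex of a quadrilateral of a bounded area around a triangle is bounded -/
theorem coord_le {p q r X : ℝ × ℝ} {N : ℝ} (h : 0 < tr p q r) (h1 : |tr q r X| ≤ N)
    (h2 : |tr r p X| ≤ N) (h3 : |tr p q X| ≤ N) :
    |X.1| ≤ N * (|p.1| + |q.1| + |r.1|) / tr p q r ∧
    |X.2| ≤ N * (|p.2| + |q.2| + |r.2|) / tr p q r := by
  constructor
  · rw [le_div_iff₀ h]
    have e : X.1 * tr p q r = tr q r X * p.1 + tr r p X * q.1 + tr p q X * r.1 := by
      unfold tr; ring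
    calc |X.1| * tr p q r = |X.1 * tr p q r| := by rw [abs_mul, abs_of_pos h]
      _ = |tr q r X * p.1 + tr r p X * q.1 + tr p q X * r.1| := by rw [e]
      _ ≤ |tr q r X * p.1| + |tr r p X * q.1| + |tr p q X * r.1| := abs_add_three _ _ _
      _ = |tr q r X| * |p.1| + |tr r p X| * |q.1| + |tr p q X| * |r.1| := by
        rw [abs_mul, abs_mul, abs_mul]
      _ ≤ N * |p.1| + N * |q.1| + N * |r.1| := by
        gcongr
      _ = N * (|p.1| + |q.1| + |r.1|) := by ring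
  · rw [le_div_iff₀ h]
    have e : X.2 * tr p q r = tr q r X * p.2 + tr r p X * q.2 + tr p q X * r.2 := by
      unfold tr; ring
    calc |X.2| * tr p q r = |X.2 * tr p q r| := by rw [abs_mul, abs_of_pos h]
      _ = |tr q r X * p.2 + tr r p X * q.2 + tr p q X * r.2| := by rw [e]
      _ ≤ |tr q r X * p.2| + |tr r p X * q.2| + |tr p q X * r.2| := abs_add_three _ _ _
      _ = |tr q r X| * |p.2| + |tr r p X| * |q.2| + |tr p q X| * |r.2| := by
        rw [abs_mul, abs_mul, abs_mul]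
      _ ≤ N * |p.2| + N * |q.2| + N * |r.2| := by
        gcongr
      _ = N * (|p.2| + |q.2| + |r.2|) := by ring

theorem ex_min {K : Set (ℝ × ℝ)} (hK : IsCompact K) {p q r : ℝ × ℝ} (hp : p ∈ K) (hq : q ∈ K)
    (hr : r ∈ K) (hpqr : 0 < tr p q r) :
    ∃ A B C D : ℝ × ℝ, WQ A B C D ∧ (∀ x ∈ K, InQ A B C D x) ∧
      ∀ A' B' C' D' : ℝ × ℝ, Quad A' B' C' D' → (∀ x ∈ K, HP A' B' C' D' x) →
        ar A B C D ≤ ar A' B' C' D' := by
  -- a big square
  obtain ⟨R, hR⟩ := hK.isBounded.exists_norm_le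
  have hR' : ∀ x ∈ K, -(|R| + 1) ≤ x.1 ∧ x.1 ≤ |R| + 1 ∧ -(|R| + 1) ≤ x.2 ∧ x.2 ≤ |R| + 1 := by
    intro x hx
    have h1 := hR x hx
    have h2 : |x.1| ≤ R := (norm_fst_le x).trans h1
    have h3 : |x.2| ≤ R := (norm_snd_le x).trans h1
    have h4 := le_abs_self R
    rw [abs_le] at h2 h3
    exact ⟨by linarith, by linarith, by linarith, by linarith⟩
  obtain ⟨T, hT⟩ : ∃ T : ℝ, T = |R| + 1 := ⟨_, rfl⟩
  rw [← hT] at hR'
  have hT0 : 0 < T := by rw [hT]; positivity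
  have q1 : ∀ x : ℝ × ℝ, tr (-T, -T) (T, -T) x = 2 * T * (x.2 + T) := by
    intro x; unfold tr; ring
  have q2 : ∀ x : ℝ × ℝ, tr (T, -T) (T, T) x = 2 * T * (T - x.1) := by
    intro x; unfold tr; ring
  have q3 : ∀ x : ℝ × ℝ, tr (T, T) (-T, T) x = 2 * T * (T - x.2) := by
    intro x; unfold tr; ring
  have q4 : ∀ x : ℝ × ℝ, tr (-T, T) (-T, -T) x = 2 * T * (x.1 + T) := by
    intro x; unfold tr; ring
  have hQ0 : Quad (-T, -T) (T, -T) (T, T) (-T, T) := by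
    refine ⟨?_, ?_, ?_, ?_⟩
    · rw [q1]; simp only; positivity
    · rw [q2]; simp only; exact mul_pos (by positivity) (by linarith)
    · rw [q3]; simp only; exact mul_pos (by positivity) (by linarith)
    · rw [q4]; simp only; positivity
  have hin0 : ∀ x ∈ K, HP (-T, -T) (T, -T) (T, T) (-T, T) x := by
    intro x hx
    obtain ⟨a1, a2, a3, a4⟩ := hR' x hx
    refine ⟨?_, ?_, ?_, ?_⟩
    · rw [q1]; exact mul_nonneg (by positivity) (by linarith)
    · rw [q2]; exact mul_nonneg (by positivity) (by linarith)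
    · rw [q3]; exact mul_nonneg (by positivity) (by linarith)
    · rw [q4]; exact mul_nonneg (by positivity) (by linarith)
  obtain ⟨M, hM⟩ : ∃ M : ℝ, M = ar (-T, -T) (T, -T) (T, T) (-T, T) := ⟨_, rfl⟩
  -- the compact set
  obtain ⟨Z, hZ⟩ : ∃ Z : Set (Fin 4 → ℝ × ℝ), Z = {v | WQ (v 0) (v 1) (v 2) (v 3)} ∩
      ({v | ar (v 0) (v 1) (v 2) (v 3) ≤ M} ∩
      ⋂ x ∈ K, {v | InQ (v 0) (v 1) (v 2) (v 3) x}) := ⟨_, rfl⟩
  have hZc : IsClosed Z := by
    rw [hZ]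
    exact closed_wq.inter ((isClosed_le cont_ar continuous_const).inter
      (isClosed_biInter fun x _ => closed_inQ x))
  have hZb : ∃ N : ℝ, ∀ v ∈ Z, ∀ i, v i ∈ Icc (-N) N ×ˢ Icc (-N) N := by
    refine ⟨max (2 * M * (|p.1| + |q.1| + |r.1|) / tr p q r)
      (2 * M * (|p.2| + |q.2| + |r.2|) / tr p q r), ?_⟩
    intro v hv i
    rw [hZ] at hv
    obtain ⟨h1, h2, h3⟩ := hv
    have h1' : WQ (v 0) (v 1) (v 2) (v 3) := h1
    have h2' : ar (v 0) (v 1) (v 2) (v 3) ≤ M := h2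
    have h3' : ∀ x ∈ K, InQ (v 0) (v 1) (v 2) (v 3) x := by
      intro x hx
      exact mem_iInter₂.mp h3 x hx
    have hi : v i = v 0 ∨ v i = v 1 ∨ v i = v 2 ∨ v i = v 3 := by
      fin_cases i
      · exact Or.inl rfl
      · exact Or.inr (Or.inl rfl)
      · exact Or.inr (Or.inr (Or.inl rfl))
      · exact Or.inr (Or.inr (Or.inr rfl))
    have b1 := (vertex_le h1' hi (h3' q hq) (h3' r hr)).trans
      (by linarith : 2 * ar (v 0) (v 1) (v 2) (v 3) ≤ 2 * M)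
    have b2 := (vertex_le h1' hi (h3' r hr) (h3' p hp)).trans
      (by linarith : 2 * ar (v 0) (v 1) (v 2) (v 3) ≤ 2 * M)
    have b3 := (vertex_le h1' hi (h3' p hp) (h3' q hq)).trans
      (by linarith : 2 * ar (v 0) (v 1) (v 2) (v 3) ≤ 2 * M)
    obtain ⟨c1, c2⟩ := coord_le hpqr b1 b2 b3
    have c1' := c1.trans (le_max_left _ (2 * M * (|p.2| + |q.2| + |r.2|) / tr p q r))
    have c2' := c2.trans (le_max_right (2 * M * (|p.1| + |q.1| + |r.1|) / tr p q r) _)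
    rw [abs_le] at c1' c2'
    exact ⟨c1', c2'⟩
  obtain ⟨N, hN⟩ := hZb
  have hZK : IsCompact Z := by
    refine IsCompact.of_isClosed_subset
      (isCompact_univ_pi (fun _ : Fin 4 => (isCompact_Icc (a := -N) (b := N)).prod
        (isCompact_Icc (a := -N) (b := N)))) hZc ?_
    intro v hv i _
    exact hN v hv i
  have hv0 : (![(-T, -T), (T, -T), (T, T), (-T, T)] : Fin 4 → ℝ × ℝ) ∈ Z := by
    rw [hZ]
    refine ⟨hQ0.wq, ?_, ?_⟩
    · show ar _ _ _ _ ≤ M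
      rw [hM]
      exact le_refl _
    · rw [mem_iInter₂]
      intro x hx
      exact (hin0 x hx).inQ hQ0
  obtain ⟨v, hv, hvmin⟩ := hZK.exists_isMinOn ⟨_, hv0⟩ cont_ar.continuousOn
  have hvm : ∀ w ∈ Z, ar (v 0) (v 1) (v 2) (v 3) ≤ ar (w 0) (w 1) (w 2) (w 3) := fun w hw => hvmin hw
  have hv' := hv
  rw [hZ] at hv'
  obtain ⟨h1, h2, h3⟩ := hv'
  refine ⟨v 0, v 1, v 2, v 3, h1, fun x hx => mem_iInter₂.mp h3 x hx, ?_⟩
  intro A' B' C' D' hQ' hin'
  rcases le_total (ar A' B' C' D') M with hle | hle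
  · refine hvm ![A', B', C', D'] ?_
    rw [hZ]
    refine ⟨hQ'.wq, hle, ?_⟩
    rw [mem_iInter₂]
    intro x hx
    exact (hin' x hx).inQ hQ'
  · exact (h2 : ar (v 0) (v 1) (v 2) (v 3) ≤ M).trans hle

end Run7.h417.CQ
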