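import Pool.Agent.Run7.h417.CQ.Basic

set_option autoImplicit false

/-!
# Minimal circumscribed quadrilaterals (MP_b29168_gt): the finite-dimensional improvement
-/

namespace Run7.h417.CQ

open MeasureTheory Set Filter Topology

/-- the eight points of a configuration are in the four half-planes -/
def HP8 (A B C D : ℝ × ℝ) (d1 d2 d3 d4 x1 y2 x3 y4 : ℝ) : Prop :=
  HP A B C D (0, 0) ∧ HP A B C D (1, 0) ∧ HP A B C D (1, 1) ∧ HP A B C D (0, 1) ∧
  HP A B C D (x1, -d1) ∧ HP A B C D (1 + d2, y2) ∧ HP A B C D (x3, 1 + d3) ∧ HP A B C D (-d4, y4)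

/-- there is a quadrilateral of an area less than two around the configuration -/
def G (d1 d2 d3 d4 x1 y2 x3 y4 : ℝ) : Prop :=
  ∃ A B C D : ℝ × ℝ, Quad A B C D ∧ ar A B C D < 2 ∧ HP8 A B C D d1 d2 d3 d4 x1 y2 x3 y4

/-- the inverse rotation -/
def S (p : ℝ × ℝ) : ℝ × ℝ := (p.2, 1 - p.1)

theorem tr_S (p q r : ℝ × ℝ) : tr (S p) (S q) (S r) = tr p q r := by
  unfold tr S
  ring

theorem HP_S {A B C D x : ℝ × ℝ} (h : HP A B C D x) : HP (S A) (S B) (S C) (S D) (S x) := by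
  obtain ⟨h1, h2, h3, h4⟩ := h
  refine ⟨?_, ?_, ?_, ?_⟩ <;> rw [tr_S] <;> assumption

theorem G.rot {d1 d2 d3 d4 x1 y2 x3 y4 : ℝ} (h : G d4 d1 d2 d3 (1 - y4) x1 (1 - y2) x3) :
    G d1 d2 d3 d4 x1 y2 x3 y4 := by
  obtain ⟨A, B, C, D, hQ, har, h1, h2, h3, h4, h5, h6, h7, h8⟩ := h
  refine ⟨S A, S B, S C, S D, ?_, ?_, ?_, ?_, ?_, ?_, ?_, ?_, ?_, ?_⟩
  · obtain ⟨q1, q2, q3, q4⟩ := hQ
    refine ⟨?_, ?_, ?_, ?_⟩ <;> rw [tr_S] <;> assumption
  · unfold ar at har ⊢
    rw [tr_S, tr_S]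
    exact har
  · have := HP_S h2
    simpa [S] using this
  · have := HP_S h3
    simpa [S] using this
  · have := HP_S h4
    simpa [S] using this
  · have := HP_S h1
    simpa [S] using this
  · have := HP_S h6
    simpa [S] using this
  · have := HP_S h7
    simpa [S] using this
  · have := HP_S h8
    simpa [S] using this
  · have := HP_S h5
    simpa [S] using this

theorem G_bot {d1 d2 d3 d4 x1 y2 x3 y4 : ℝ} (hd1 : 0 < d1) (hd2 : 0 ≤ d2) (hd3 : 0 ≤ d3)
    (hd4 : 0 ≤ d4) (hu : d2 + d4 = √2 - 1) (hv : d1 + d3 = √2 - 1)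
    (hx1 : 0 ≤ x1) (hx1' : x1 ≤ 1) (hy2 : 0 ≤ y2) (hy2' : y2 ≤ 1) (hx3 : 0 ≤ x3) (hx3' : x3 ≤ 1)
    (hy4 : 0 ≤ y4) (hy4' : y4 ≤ 1) (hne : x1 ≠ (1 + d2 - d4) / 2) :
    G d1 d2 d3 d4 x1 y2 x3 y4 := by
  have hs2 : √2 ≤ 3 / 2 := by
    rw [Real.sqrt_le_left (by norm_num)]
    norm_num
  have hs1 : 1 < √2 := by
    rw [Real.lt_sqrt (by norm_num)]
    norm_num
  have hsq : √2 * √2 = 2 := Real.mul_self_sqrt (by norm_num)
  obtain ⟨σ, hσ⟩ : ∃ σ : ℝ, σ = d1 / 2 * ((1 + d2 - d4) / 2 - x1) := ⟨_, rfl⟩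
  have ha1 : |(1 + d2 - d4) / 2 - x1| ≤ 1 := by
    rw [abs_le]
    constructor <;> linarith
  have hσ1 : |σ| ≤ d1 / 2 := by
    rw [hσ, abs_mul, abs_of_pos (by linarith : 0 < d1 / 2)]
    nlinarith
  have hb : ∀ t : ℝ, |t| ≤ 2 → σ * t ≤ d1 := by
    intro t ht
    calc σ * t ≤ |σ * t| := le_abs_self _
      _ = |σ| * |t| := abs_mul _ _
      _ ≤ d1 / 2 * 2 := mul_le_mul hσ1 ht (abs_nonneg _) (by linarith)
      _ = d1 := by ring
  have hA2 : -d1 + σ * (-d4 - x1) ≤ 0 := by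
    have := hb (-d4 - x1) (by rw [abs_le]; constructor <;> linarith)
    linarith
  have hB2 : -d1 + σ * (1 + d2 - x1) ≤ 0 := by
    have := hb (1 + d2 - x1) (by rw [abs_le]; constructor <;> linarith)
    linarith
  have hW : 0 < 1 + d2 + d4 := by linarith
  have e1 : ∀ x : ℝ × ℝ, tr (-d4, -d1 + σ * (-d4 - x1)) (1 + d2, -d1 + σ * (1 + d2 - x1)) x =
      (1 + d2 + d4) * (x.2 + d1 - σ * (x.1 - x1)) := by
    intro x
    unfold tr
    ring
  have e2 : ∀ x : ℝ × ℝ, tr (1 + d2, -d1 + σ * (1 + d2 - x1)) (1 + d2, 1 + d3) x =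
      (1 + d3 - (-d1 + σ * (1 + d2 - x1))) * (1 + d2 - x.1) := by
    intro x
    unfold tr
    ring
  have e3 : ∀ x : ℝ × ℝ, tr (1 + d2, 1 + d3) (-d4, 1 + d3) x =
      (1 + d2 + d4) * (1 + d3 - x.2) := by
    intro x
    unfold tr
    ring
  have e4 : ∀ x : ℝ × ℝ, tr (-d4, 1 + d3) (-d4, -d1 + σ * (-d4 - x1)) x =
      (1 + d3 - (-d1 + σ * (-d4 - x1))) * (x.1 + d4) := by
    intro x
    unfold tr
    ring
  have hp : ∀ x : ℝ × ℝ, -d4 ≤ x.1 → x.1 ≤ 1 + d2 → x.2 ≤ 1 + d3 → σ * (x.1 - x1) ≤ x.2 + d1 →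
      HP (-d4, -d1 + σ * (-d4 - x1)) (1 + d2, -d1 + σ * (1 + d2 - x1)) (1 + d2, 1 + d3)
        (-d4, 1 + d3) x := by
    intro x h1 h2 h3 h4
    refine ⟨?_, ?_, ?_, ?_⟩
    · rw [e1]
      exact mul_nonneg hW.le (by linarith)
    · rw [e2]
      exact mul_nonneg (by linarith) (by linarith)
    · rw [e3]
      exact mul_nonneg hW.le (by linarith)
    · rw [e4]
      exact mul_nonneg (by linarith) (by linarith)
  refine ⟨(-d4, -d1 + σ * (-d4 - x1)), (1 + d2, -d1 + σ * (1 + d2 - x1)), (1 + d2, 1 + d3),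
    (-d4, 1 + d3), ⟨?_, ?_, ?_, ?_⟩, ?_, ?_, ?_, ?_, ?_, ?_, ?_, ?_, ?_⟩
  · rw [e1]
    refine mul_pos hW ?_
    simp only
    linarith
  · rw [e2]
    refine mul_pos ?_ ?_
    · linarith
    · simp only
      linarith
  · rw [e3]
    refine mul_pos hW ?_
    simp only
    linarith
  · rw [e4]
    refine mul_pos ?_ ?_
    · linarith
    · simp only
      linarith
  · unfold ar
    rw [e1, e3]
    simp only
    have hpos : 0 < ((1 + d2 - d4) / 2 - x1) ^ 2 := by
      have : (1 + d2 - d4) / 2 - x1 ≠ 0 := fun h => hne (by linarith)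
      positivity
    have hw : 1 + d2 + d4 = √2 := by linarith
    have hd3' : d3 = √2 - 1 - d1 := by linarith
    rw [hw]
    have key : (√2 * (1 + d3 + d1 - σ * (1 + d2 - x1)) +
        √2 * (1 + d3 - (-d1 + σ * (-d4 - x1)))) / 2 = 2 - √2 * (d1 / 2 * ((1 + d2 - d4) / 2 - x1) ^ 2) := by
      rw [hσ, hd3']
      linear_combination hsq
    rw [key]
    have : 0 < √2 * (d1 / 2 * ((1 + d2 - d4) / 2 - x1) ^ 2) := by positivity
    linarith
  · apply hp
    · simp only; linarith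
    · simp only; linarith
    · simp only; linarith
    · have := hb (0 - x1) (by rw [abs_le]; constructor <;> linarith)
      simp only
      linarith
  · apply hp
    · simp only; linarith
    · simp only; linarith
    · simp only; linarith
    · have := hb (1 - x1) (by rw [abs_le]; constructor <;> linarith)
      simp only
      linarith
  · apply hp
    · simp only; linarith
    · simp only; linarith
    · simp only; linarith
    · have := hb (1 - x1) (by rw [abs_le]; constructor <;> linarith)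
      simp only
      linarith
  · apply hp
    · simp only; linarith
    · simp only; linarith
    · simp only; linarith
    · have := hb (0 - x1) (by rw [abs_le]; constructor <;> linarith)
      simp only
      linarith
  · apply hp
    · simp only; linarith
    · simp only; linarith
    · simp only; linarith
    · simp
  · apply hp
    · simp only; linarith
    · simp only; linarith
    · simp only; linarith
    · have := hb (1 + d2 - x1) (by rw [abs_le]; constructor <;> linarith)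
      simp only
      linarith
  · apply hp
    · simp only; linarith
    · simp only; linarith
    · simp only; linarith
    · have := hb (x3 - x1) (by rw [abs_le]; constructor <;> linarith)
      simp only
      linarith
  · apply hp
    · simp only; linarith
    · simp only; linarith
    · simp only; linarith
    · have := hb (-d4 - x1) (by rw [abs_le]; constructor <;> linarith)
      simp only
      linarith

theorem G_rt {d1 d2 d3 d4 x1 y2 x3 y4 : ℝ} (hd1 : 0 ≤ d1) (hd2 : 0 < d2) (hd3 : 0 < d3)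
    (hd4 : 0 ≤ d4) (hu : d2 + d4 = √2 - 1) (hv : d1 + d3 = √2 - 1)
    (hx1 : 0 ≤ x1) (hx1' : x1 ≤ 1) (hy4 : 0 ≤ y4) (hy4' : y4 ≤ 1)
    (h2 : y2 = (1 + d3 - d1) / 2) (h3 : x3 = (1 + d2 - d4) / 2) :
    G d1 d2 d3 d4 x1 y2 x3 y4 := by
  have hs2 : √2 ≤ 3 / 2 := by
    rw [Real.sqrt_le_left (by norm_num)]
    norm_num
  have hs1 : 1 < √2 := by
    rw [Real.lt_sqrt (by norm_num)]
    norm_num
  have hsq : √2 * √2 = 2 := Real.mul_self_sqrt (by norm_num)
  obtain ⟨k, hk0, hk2, hk3⟩ : ∃ k : ℝ, 0 < k ∧ k ≤ d2 ∧ k ≤ d3 :=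
    ⟨min d2 d3, lt_min hd2 hd3, min_le_left _ _, min_le_right _ _⟩
  have hk1 : k < 1 := by linarith
  obtain ⟨h, hh⟩ : ∃ h : ℝ, h = √2 / 2 := ⟨_, rfl⟩
  have hh0 : 0 < h := by rw [hh]; positivity
  have hh1 : h < 1 := by linarith
  have hhalf : 1 / 2 < h := by linarith
  have hhh : h * h = 1 / 2 := by rw [hh]; linarith
  have hd2e : d2 = 2 * h - 1 - d4 := by rw [hh]; linarith
  have hd3e : d3 = 2 * h - 1 - d1 := by rw [hh]; linarith
  subst hd2e
  subst hd3e
  obtain ⟨q, hq⟩ : ∃ q : ℝ, q = h / (1 + k ^ 2) := ⟨_, rfl⟩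
  have hq0 : 0 < q := by rw [hq]; positivity
  have hqh : h = q * (1 + k ^ 2) := by
    rw [hq]
    field_simp
  -- the four sides
  have e1 : ∀ x : ℝ × ℝ, tr (-d4, -d1) (h - d4 + h * (1 + k), -d1) x =
      h * (2 + k) * (x.2 + d1) := by
    intro x
    unfold tr
    ring
  have e2 : ∀ x : ℝ × ℝ, tr (h - d4 + h * (1 + k), -d1)
      (h - d4 + q * (1 - k), h - d1 + q * (1 + k)) x =
      q * (2 + k + k ^ 2) * (h - (x.1 - (h - d4)) - k * (x.2 - (h - d1))) := by
    intro x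
    unfold tr
    simp only
    rw [hqh]
    ring
  have e3 : ∀ x : ℝ × ℝ, tr (h - d4 + q * (1 - k), h - d1 + q * (1 + k))
      (-d4, h - d1 + h * (1 - k)) x =
      q * (2 - k + k ^ 2) * (h - (x.2 - (h - d1)) + k * (x.1 - (h - d4))) := by
    intro x
    unfold tr
    simp only
    rw [hqh]
    ring
  have e4 : ∀ x : ℝ × ℝ, tr (-d4, h - d1 + h * (1 - k)) (-d4, -d1) x =
      h * (2 - k) * (x.1 + d4) := by
    intro x
    unfold tr
    ring
  have hq1 : 0 < q * (2 + k + k ^ 2) := by positivity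
  have hq2 : 0 < q * (2 - k + k ^ 2) := mul_pos hq0 (by nlinarith)
  have hp : ∀ x : ℝ × ℝ, -d4 ≤ x.1 → -d1 ≤ x.2 →
      (x.1 - (h - d4)) + k * (x.2 - (h - d1)) ≤ h →
      (x.2 - (h - d1)) - k * (x.1 - (h - d4)) ≤ h →
      HP (-d4, -d1) (h - d4 + h * (1 + k), -d1)
        (h - d4 + q * (1 - k), h - d1 + q * (1 + k)) (-d4, h - d1 + h * (1 - k)) x := by
    intro x h1 h2 h3 h4
    refine ⟨?_, ?_, ?_, ?_⟩
    · rw [e1]
      exact mul_nonneg (by positivity) (by linarith)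
    · rw [e2]
      exact mul_nonneg hq1.le (by linarith)
    · rw [e3]
      exact mul_nonneg hq2.le (by linarith)
    · rw [e4]
      exact mul_nonneg (mul_nonneg hh0.le (by linarith)) (by linarith)
  have hkh : 0 < k * h := mul_pos hk0 hh0
  have hd1' : d1 ≤ 2 * h - 1 := by linarith
  have hd4' : d4 ≤ 2 * h - 1 := by linarith
  have p1 : 0 ≤ k * (h - d1) := mul_nonneg hk0.le (by linarith)
  have p4 : 0 ≤ k * (h - d4) := mul_nonneg hk0.le (by linarith)
  have p2 : 0 ≤ k * (1 - h + d4) := mul_nonneg hk0.le (by linarith)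
  have p3 : 0 ≤ k * (1 - h + d1) := mul_nonneg hk0.le (by linarith)
  have r1 : 0 ≤ (1 - k) * (h - d1) := mul_nonneg (by linarith) (by linarith)
  have r4 : 0 ≤ (1 - k) * (h - d4) := mul_nonneg (by linarith) (by linarith)
  have r0 : 0 ≤ (1 - k) * h := mul_nonneg (by linarith) hh0.le
  have r5 : 0 ≤ k * (1 - h) := mul_nonneg hk0.le (by linarith)
  have s1 : 0 ≤ k * x1 := mul_nonneg hk0.le hx1
  have s4 : 0 ≤ k * (1 - y4) := mul_nonneg hk0.le (by linarith)
  have s5 : 0 ≤ k * d1 := mul_nonneg hk0.le hd1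
  have s6 : 0 ≤ k * d4 := mul_nonneg hk0.le hd4
  refine ⟨(-d4, -d1), (h - d4 + h * (1 + k), -d1),
    (h - d4 + q * (1 - k), h - d1 + q * (1 + k)), (-d4, h - d1 + h * (1 - k)),
    ⟨?_, ?_, ?_, ?_⟩, ?_, ?_, ?_, ?_, ?_, ?_, ?_, ?_, ?_⟩
  · rw [e1]
    refine mul_pos (by positivity) ?_
    simp only
    linarith [mul_pos hq0 hk0]
  · rw [tr_cyc, e3]
    refine mul_pos hq2 ?_
    simp only
    linarith [mul_pos hkh hk0]
  · rw [e3]
    refine mul_pos hq2 ?_
    simp only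
    linarith
  · rw [e4]
    refine mul_pos (mul_pos hh0 (by linarith)) ?_
    simp only
    linarith
  · unfold ar
    rw [e1, e3]
    simp only
    have key : (h * (2 + k) * (h - d1 + q * (1 + k) + d1) +
        q * (2 - k + k ^ 2) * (h - (-d1 - (h - d1)) + k * (-d4 - (h - d4)))) / 2 =
        4 * (h * h) - q * h * k ^ 2 := by
      rw [hqh]
      ring
    rw [key, hhh]
    have : 0 < q * h * k ^ 2 := by positivity
    linarith
  · apply hp
    · simp only; linarith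
    · simp only; linarith
    · simp only; linarith
    · simp only; linarith
  · apply hp
    · simp only; linarith
    · simp only; linarith
    · simp only; linarith
    · simp only; linarith
  · apply hp
    · simp only; linarith
    · simp only; linarith
    · simp only; linarith
    · simp only; linarith
  · apply hp
    · simp only; linarith
    · simp only; linarith
    · simp only; linarith
    · simp only; linarith
  · apply hp
    · simp only; linarith
    · simp only; linarith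
    · simp only; linarith
    · simp only; linarith
  · apply hp
    · simp only; linarith
    · simp only; rw [h2]; linarith
    · simp only; rw [h2]; linarith
    · simp only; rw [h2]; linarith
  · apply hp
    · simp only; rw [h3]; linarith
    · simp only; linarith
    · simp only; rw [h3]; linarith
    · simp only; rw [h3]; linarith
  · apply hp
    · simp only; linarith
    · simp only; linarith
    · simp only; linarith
    · simp only; linarith

theorem lemF {d1 d2 d3 d4 x1 y2 x3 y4 : ℝ} (hd1 : 0 ≤ d1) (hd2 : 0 ≤ d2) (hd3 : 0 ≤ d3)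
    (hd4 : 0 ≤ d4) (hu : d2 + d4 = √2 - 1) (hv : d1 + d3 = √2 - 1)
    (hx1 : 0 ≤ x1) (hx1' : x1 ≤ 1) (hy2 : 0 ≤ y2) (hy2' : y2 ≤ 1) (hx3 : 0 ≤ x3) (hx3' : x3 ≤ 1)
    (hy4 : 0 ≤ y4) (hy4' : y4 ≤ 1) :
    G d1 d2 d3 d4 x1 y2 x3 y4 := by
  have hs1 : 1 < √2 := by
    rw [Real.lt_sqrt (by norm_num)]
    norm_num
  have hu' : d4 + d2 = √2 - 1 := by linarith
  have hv' : d3 + d1 = √2 - 1 := by linarith
  by_cases c1 : 0 < d1 ∧ x1 ≠ (1 + d2 - d4) / 2
  · exact G_bot c1.1 hd2 hd3 hd4 hu hv hx1 hx1' hy2 hy2' hx3 hx3' hy4 hy4' c1.2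
  by_cases c4 : 0 < d4 ∧ y4 ≠ (1 + d3 - d1) / 2
  · apply G.rot
    refine G_bot c4.1 hd1 hd2 hd3 hv hu' (by linarith) (by linarith) hx1 hx1' (by linarith)
      (by linarith) hx3 hx3' ?_
    intro h
    exact c4.2 (by linarith)
  by_cases c3 : 0 < d3 ∧ x3 ≠ (1 + d2 - d4) / 2
  · apply G.rot
    apply G.rot
    refine G_bot c3.1 hd4 hd1 hd2 hu' hv' (by linarith) (by linarith) (by linarith) (by linarith)
      (by linarith) (by linarith) (by linarith) (by linarith) ?_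
    intro h
    exact c3.2 (by linarith)
  by_cases c2 : 0 < d2 ∧ y2 ≠ (1 + d3 - d1) / 2
  · apply G.rot
    apply G.rot
    apply G.rot
    refine G_bot c2.1 hd3 hd4 hd1 hv' hu (by linarith) (by linarith) (by linarith) (by linarith)
      (by linarith) (by linarith) (by linarith) (by linarith) ?_
    intro h
    exact c2.2 (by linarith)
  have f1 : 0 < d1 → x1 = (1 + d2 - d4) / 2 := fun h => not_not.mp fun h' => c1 ⟨h, h'⟩
  have f2 : 0 < d2 → y2 = (1 + d3 - d1) / 2 := fun h => not_not.mp fun h' => c2 ⟨h, h'⟩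
  have f3 : 0 < d3 → x3 = (1 + d2 - d4) / 2 := fun h => not_not.mp fun h' => c3 ⟨h, h'⟩
  have f4 : 0 < d4 → y4 = (1 + d3 - d1) / 2 := fun h => not_not.mp fun h' => c4 ⟨h, h'⟩
  rcases lt_or_ge 0 d2 with p2 | p2
  · rcases lt_or_ge 0 d3 with p3 | p3
    · exact G_rt hd1 p2 p3 hd4 hu hv hx1 hx1' hy4 hy4' (f2 p2) (f3 p3)
    · have p1 : 0 < d1 := by linarith
      apply G.rot
      refine G_rt hd4 p1 p2 hd3 hv hu' (by linarith) (by linarith) hx3 hx3' ?_ ?_
      · linarith [f1 p1]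
      · linarith [f2 p2]
  · have p4 : 0 < d4 := by linarith
    rcases lt_or_ge 0 d3 with p3 | p3
    · apply G.rot
      apply G.rot
      apply G.rot
      refine G_rt hd2 p3 p4 hd1 hv' hu (by linarith) (by linarith) (by linarith) (by linarith) ?_ ?_
      · linarith [f3 p3]
      · linarith [f4 p4]
    · have p1 : 0 < d1 := by linarith
      apply G.rot
      apply G.rot
      refine G_rt hd3 p4 p1 hd2 hu' hv' (by linarith) (by linarith) (by linarith) (by linarith) ?_ ?_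
      · linarith [f4 p4]
      · linarith [f1 p1]

/-- strictly inside the four half-planes -/
def SHP (A B C D x : ℝ × ℝ) : Prop :=
  0 < tr A B x ∧ 0 < tr B C x ∧ 0 < tr C D x ∧ 0 < tr D A x

theorem SHP.hp {A B C D x : ℝ × ℝ} (h : SHP A B C D x) : HP A B C D x :=
  ⟨h.1.le, h.2.1.le, h.2.2.1.le, h.2.2.2.le⟩

/-- the homothety with the centre `(1/2, 1/2)` -/
noncomputable def hom (k : ℝ) (p : ℝ × ℝ) : ℝ × ℝ :=
  (1 / 2 + k * (p.1 - 1 / 2), 1 / 2 + k * (p.2 - 1 / 2))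

theorem tr_hom (k : ℝ) (p q x : ℝ × ℝ) :
    tr (hom k p) (hom k q) x = k * (tr p q x + (k - 1) * tr p q (1 / 2, 1 / 2)) := by
  unfold tr hom
  ring

theorem tr_hom' (k : ℝ) (p q r : ℝ × ℝ) :
    tr (hom k p) (hom k q) (hom k r) = k ^ 2 * tr p q r := by
  unfold tr hom
  ring

theorem centre_pos {p q : ℝ × ℝ} (hpq : p ≠ q) (h00 : 0 ≤ tr p q (0, 0)) (h10 : 0 ≤ tr p q (1, 0))
    (h11 : 0 ≤ tr p q (1, 1)) (h01 : 0 ≤ tr p q (0, 1)) : 0 < tr p q (1 / 2, 1 / 2) := by
  have e1 : tr p q (1 / 2, 1 / 2) = (tr p q (0, 0) + tr p q (1, 1)) / 2 := by unfold tr; ring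
  have e2 : tr p q (1 / 2, 1 / 2) = (tr p q (1, 0) + tr p q (0, 1)) / 2 := by unfold tr; ring
  by_contra hcon
  have a1 : tr p q (0, 0) = 0 := by linarith
  have a2 : tr p q (1, 0) = 0 := by linarith
  have a3 : tr p q (0, 1) = 0 := by linarith
  apply hpq
  unfold tr at a1 a2 a3
  simp only at a1 a2 a3
  ext
  · linarith
  · linarith

theorem Quad.ne {A B C D : ℝ × ℝ} (h : Quad A B C D) : A ≠ B := by
  rintro rfl
  have := h.1
  unfold tr at this
  linarith

/-- the strict form of the configuration lemma -/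
theorem G.strict {d1 d2 d3 d4 x1 y2 x3 y4 : ℝ} (h : G d1 d2 d3 d4 x1 y2 x3 y4) :
    ∃ A B C D : ℝ × ℝ, Quad A B C D ∧ ar A B C D < 2 ∧ SHP A B C D (0, 0) ∧ SHP A B C D (1, 0) ∧
    SHP A B C D (1, 1) ∧ SHP A B C D (0, 1) ∧ SHP A B C D (x1, -d1) ∧ SHP A B C D (1 + d2, y2) ∧
    SHP A B C D (x3, 1 + d3) ∧ SHP A B C D (-d4, y4) := by
  obtain ⟨A, B, C, D, hQ, har, h1, h2, h3, h4, h5, h6, h7, h8⟩ := h
  have z1 : 0 < tr A B (1 / 2, 1 / 2) := centre_pos hQ.ne h1.1 h2.1 h3.1 h4.1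
  have z2 : 0 < tr B C (1 / 2, 1 / 2) := centre_pos hQ.rot.ne h1.2.1 h2.2.1 h3.2.1 h4.2.1
  have z3 : 0 < tr C D (1 / 2, 1 / 2) :=
    centre_pos hQ.rot.rot.ne h1.2.2.1 h2.2.2.1 h3.2.2.1 h4.2.2.1
  have z4 : 0 < tr D A (1 / 2, 1 / 2) :=
    centre_pos hQ.rot.rot.rot.ne h1.2.2.2 h2.2.2.2 h3.2.2.2 h4.2.2.2
  have har0 : 0 < ar A B C D := by
    unfold ar
    linarith [hQ.1, hQ.2.2.1]
  obtain ⟨k, hk⟩ : ∃ k : ℝ, k = 1 + (2 - ar A B C D) / 8 := ⟨_, rfl⟩
  have hk1 : 1 < k := by linarith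
  have hk0 : 0 < k := by linarith
  have hk1' : 0 < k - 1 := by linarith
  have key : ∀ x : ℝ × ℝ, HP A B C D x → SHP (hom k A) (hom k B) (hom k C) (hom k D) x := by
    intro x hx
    refine ⟨?_, ?_, ?_, ?_⟩
    · rw [tr_hom]
      exact mul_pos hk0 (add_pos_of_nonneg_of_pos hx.1 (mul_pos hk1' z1))
    · rw [tr_hom]
      exact mul_pos hk0 (add_pos_of_nonneg_of_pos hx.2.1 (mul_pos hk1' z2))
    · rw [tr_hom]
      exact mul_pos hk0 (add_pos_of_nonneg_of_pos hx.2.2.1 (mul_pos hk1' z3))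
    · rw [tr_hom]
      exact mul_pos hk0 (add_pos_of_nonneg_of_pos hx.2.2.2 (mul_pos hk1' z4))
  refine ⟨hom k A, hom k B, hom k C, hom k D, ⟨?_, ?_, ?_, ?_⟩, ?_, key _ h1, key _ h2, key _ h3,
    key _ h4, key _ h5, key _ h6, key _ h7, key _ h8⟩
  · rw [tr_hom']
    exact mul_pos (by positivity) hQ.1
  · rw [tr_hom']
    exact mul_pos (by positivity) hQ.2.1
  · rw [tr_hom']
    exact mul_pos (by positivity) hQ.2.2.1
  · rw [tr_hom']
    exact mul_pos (by positivity) hQ.2.2.2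
  · have e : ar (hom k A) (hom k B) (hom k C) (hom k D) = k ^ 2 * ar A B C D := by
      unfold ar
      rw [tr_hom', tr_hom']
      ring
    rw [e, hk]
    nlinarith [mul_pos har0 (by linarith : 0 < 2 - ar A B C D)]

end Run7.h417.CQ
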