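import Pool.Agent.Run7.h417.CQ.Area
import Pool.Agent.Run7.h417.CQ.LemF

set_option autoImplicit false

/-!
# Minimal circumscribed quadrilaterals (MP_b29168_gt): the compactness argument
-/

namespace Run7.h417.CQ

open MeasureTheory Set Filter Topology

/-- normalized sets -/
structure Nrm (K : Set (ℝ × ℝ)) : Prop where
  conv : Convex ℝ K
  comp : IsCompact K
  h00 : ((0 : ℝ), (0 : ℝ)) ∈ K
  h10 : ((1 : ℝ), (0 : ℝ)) ∈ K
  h11 : ((1 : ℝ), (1 : ℝ)) ∈ K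
  h01 : ((0 : ℝ), (1 : ℝ)) ∈ K
  bot : ∀ p ∈ K, p.2 < 0 → 0 ≤ p.1 ∧ p.1 ≤ 1
  top : ∀ p ∈ K, 1 < p.2 → 0 ≤ p.1 ∧ p.1 ≤ 1
  left : ∀ p ∈ K, p.1 < 0 → 0 ≤ p.2 ∧ p.2 ≤ 1
  right : ∀ p ∈ K, 1 < p.1 → 0 ≤ p.2 ∧ p.2 ≤ 1
  min : ∀ A B C D : ℝ × ℝ, Quad A B C D → (∀ x ∈ K, HP A B C D x) → 2 ≤ ar A B C D

/-- contact data -/
structure Dat (K : Set (ℝ × ℝ)) (z : Fin 8 → ℝ) : Prop where
  d1 : 0 ≤ z 0
  d2 : 0 ≤ z 1
  d3 : 0 ≤ z 2
  d4 : 0 ≤ z 3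
  x1 : 0 ≤ z 4
  x1' : z 4 ≤ 1
  y2 : 0 ≤ z 5
  y2' : z 5 ≤ 1
  x3 : 0 ≤ z 6
  x3' : z 6 ≤ 1
  y4 : 0 ≤ z 7
  y4' : z 7 ≤ 1
  c1 : (z 4, -z 0) ∈ K
  c2 : (1 + z 1, z 5) ∈ K
  c3 : (z 6, 1 + z 2) ∈ K
  c4 : (-z 3, z 7) ∈ K
  box : 2 ≤ (1 + z 1 + z 3) * (1 + z 0 + z 2)

theorem Nrm.dat {K : Set (ℝ × ℝ)} (h : Nrm K) : ∃ z : Fin 8 → ℝ, Dat K z := by
  have hne : K.Nonempty := ⟨_, h.h00⟩
  obtain ⟨d1, x1, hd1, hx1, hx1', c1, m1⟩ : ∃ d x : ℝ, 0 ≤ d ∧ 0 ≤ x ∧ x ≤ 1 ∧ (x, -d) ∈ K ∧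
      ∀ p ∈ K, -d ≤ p.2 := by
    obtain ⟨p, hp, hmin⟩ := h.comp.exists_isMinOn hne continuous_snd.continuousOn
    have hmin' : ∀ y ∈ K, p.2 ≤ y.2 := fun y hy => hmin hy
    have hp0 : p.2 ≤ 0 := hmin' _ h.h00
    rcases lt_or_eq_of_le hp0 with hlt | heq
    · obtain ⟨a, b⟩ := h.bot p hp hlt
      exact ⟨-p.2, p.1, by linarith, a, b, by rwa [neg_neg], fun q hq => by
        rw [neg_neg]; exact hmin' q hq⟩
    · exact ⟨0, 0, le_refl _, le_refl _, zero_le_one, by rw [neg_zero]; exact h.h00, fun q hq => by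
        rw [neg_zero, ← heq]; exact hmin' q hq⟩
  obtain ⟨d3, x3, hd3, hx3, hx3', c3, m3⟩ : ∃ d x : ℝ, 0 ≤ d ∧ 0 ≤ x ∧ x ≤ 1 ∧ (x, 1 + d) ∈ K ∧
      ∀ p ∈ K, p.2 ≤ 1 + d := by
    obtain ⟨p, hp, hmax⟩ := h.comp.exists_isMaxOn hne continuous_snd.continuousOn
    have hmax' : ∀ y ∈ K, y.2 ≤ p.2 := fun y hy => hmax hy
    have hp0 : 1 ≤ p.2 := hmax' _ h.h11
    rcases lt_or_eq_of_le hp0 with hlt | heq
    · obtain ⟨a, b⟩ := h.top p hp hlt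
      exact ⟨p.2 - 1, p.1, by linarith, a, b, by
        have : 1 + (p.2 - 1) = p.2 := by ring
        rw [this]; exact hp, fun q hq => by
        have := hmax' q hq
        linarith⟩
    · exact ⟨0, 0, le_refl _, le_refl _, zero_le_one, by rw [add_zero]; exact h.h01, fun q hq => by
        rw [add_zero, heq]; exact hmax' q hq⟩
  obtain ⟨d4, y4, hd4, hy4, hy4', c4, m4⟩ : ∃ d x : ℝ, 0 ≤ d ∧ 0 ≤ x ∧ x ≤ 1 ∧ (-d, x) ∈ K ∧
      ∀ p ∈ K, -d ≤ p.1 := by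
    obtain ⟨p, hp, hmin⟩ := h.comp.exists_isMinOn hne continuous_fst.continuousOn
    have hmin' : ∀ y ∈ K, p.1 ≤ y.1 := fun y hy => hmin hy
    have hp0 : p.1 ≤ 0 := hmin' _ h.h00
    rcases lt_or_eq_of_le hp0 with hlt | heq
    · obtain ⟨a, b⟩ := h.left p hp hlt
      exact ⟨-p.1, p.2, by linarith, a, b, by rwa [neg_neg], fun q hq => by
        rw [neg_neg]; exact hmin' q hq⟩
    · exact ⟨0, 0, le_refl _, le_refl _, zero_le_one, by rw [neg_zero]; exact h.h00, fun q hq => by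
        rw [neg_zero, ← heq]; exact hmin' q hq⟩
  obtain ⟨d2, y2, hd2, hy2, hy2', c2, m2⟩ : ∃ d x : ℝ, 0 ≤ d ∧ 0 ≤ x ∧ x ≤ 1 ∧ (1 + d, x) ∈ K ∧
      ∀ p ∈ K, p.1 ≤ 1 + d := by
    obtain ⟨p, hp, hmax⟩ := h.comp.exists_isMaxOn hne continuous_fst.continuousOn
    have hmax' : ∀ y ∈ K, y.1 ≤ p.1 := fun y hy => hmax hy
    have hp0 : 1 ≤ p.1 := hmax' _ h.h11
    rcases lt_or_eq_of_le hp0 with hlt | heq
    · obtain ⟨a, b⟩ := h.right p hp hlt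
      exact ⟨p.1 - 1, p.2, by linarith, a, b, by
        have : 1 + (p.1 - 1) = p.1 := by ring
        rw [this]; exact hp, fun q hq => by
        have := hmax' q hq
        linarith⟩
    · exact ⟨0, 0, le_refl _, le_refl _, zero_le_one, by rw [add_zero]; exact h.h10, fun q hq => by
        rw [add_zero, heq]; exact hmax' q hq⟩
  refine ⟨![d1, d2, d3, d4, x1, y2, x3, y4], hd1, hd2, hd3, hd4, hx1, hx1', hy2, hy2', hx3, hx3',
    hy4, hy4', c1, c2, c3, c4, ?_⟩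
  show 2 ≤ (1 + d2 + d4) * (1 + d1 + d3)
  have t1 : ∀ x : ℝ × ℝ, tr (-d4, -d1) (1 + d2, -d1) x = (1 + d2 + d4) * (x.2 + d1) := by
    intro x; unfold tr; ring
  have t2 : ∀ x : ℝ × ℝ, tr (1 + d2, -d1) (1 + d2, 1 + d3) x =
      (1 + d1 + d3) * (1 + d2 - x.1) := by
    intro x; unfold tr; ring
  have t3 : ∀ x : ℝ × ℝ, tr (1 + d2, 1 + d3) (-d4, 1 + d3) x =
      (1 + d2 + d4) * (1 + d3 - x.2) := by
    intro x; unfold tr; ring
  have t4 : ∀ x : ℝ × ℝ, tr (-d4, 1 + d3) (-d4, -d1) x = (1 + d1 + d3) * (x.1 + d4) := by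
    intro x; unfold tr; ring
  have hu : 0 < 1 + d2 + d4 := by linarith
  have hv : 0 < 1 + d1 + d3 := by linarith
  have hQ : Quad (-d4, -d1) (1 + d2, -d1) (1 + d2, 1 + d3) (-d4, 1 + d3) := by
    refine ⟨?_, ?_, ?_, ?_⟩
    · rw [t1]; exact mul_pos hu (by simp only; linarith)
    · rw [t2]; exact mul_pos hv (by simp only; linarith)
    · rw [t3]; exact mul_pos hu (by simp only; linarith)
    · rw [t4]; exact mul_pos hv (by simp only; linarith)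
  have key := h.min _ _ _ _ hQ (by
    intro x hx
    refine ⟨?_, ?_, ?_, ?_⟩
    · rw [t1]; exact mul_nonneg hu.le (by linarith [m1 x hx])
    · rw [t2]; exact mul_nonneg hv.le (by linarith [m2 x hx])
    · rw [t3]; exact mul_nonneg hu.le (by linarith [m3 x hx])
    · rw [t4]; exact mul_nonneg hv.le (by linarith [m4 x hx]))
  have e : ar (-d4, -d1) (1 + d2, -d1) (1 + d2, 1 + d3) (-d4, 1 + d3) =
      (1 + d2 + d4) * (1 + d1 + d3) := by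
    unfold ar tr
    ring
  rwa [e] at key

theorem Dat.area {K : Set (ℝ × ℝ)} (hK : Convex ℝ K) (h00 : ((0 : ℝ), (0 : ℝ)) ∈ K)
    (h10 : ((1 : ℝ), (0 : ℝ)) ∈ K) (h11 : ((1 : ℝ), (1 : ℝ)) ∈ K) (h01 : ((0 : ℝ), (1 : ℝ)) ∈ K)
    {z : Fin 8 → ℝ} (h : Dat K z) :
    ENNReal.ofReal (1 + (z 0 + z 1 + z 2 + z 3) / 2) ≤ volume K :=
  area_lower hK h00 h10 h11 h01 h.d1 h.d2 h.d3 h.d4 h.y2 h.y2' h.y4 h.y4' h.c1 h.c2 h.c3 h.c4

theorem convex_half (p q : ℝ × ℝ) (m : ℝ) : Convex ℝ {x | m ≤ tr p q x} := by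
  intro x hx y hy a b ha hb hab
  have hx' : m ≤ tr p q x := hx
  have hy' : m ≤ tr p q y := hy
  show m ≤ tr p q (a • x + b • y)
  have e : tr p q (a • x + b • y) = a * tr p q x + b * tr p q y := by
    have hb' : b = 1 - a := by linarith
    unfold tr
    rw [hb']
    simp
    ring
  rw [e]
  calc m = a * m + b * m := by rw [← add_mul, hab, one_mul]
    _ ≤ _ := add_le_add (mul_le_mul_of_nonneg_left hx' ha) (mul_le_mul_of_nonneg_left hy' hb)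

theorem meas_half (p q : ℝ × ℝ) (m : ℝ) : MeasurableSet {x | m ≤ tr p q x} := by
  have : IsClosed {x : ℝ × ℝ | m ≤ tr p q x} :=
    isClosed_le continuous_const (by unfold tr; fun_prop)
  exact this.measurableSet

/-- if the eight points have distance at least `m` from a line and there is a point of the set on
the other side, then the area is larger -/
theorem cut {K : Set (ℝ × ℝ)} (hK : Convex ℝ K) (h00 : ((0 : ℝ), (0 : ℝ)) ∈ K)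
    (h10 : ((1 : ℝ), (0 : ℝ)) ∈ K) (h11 : ((1 : ℝ), (1 : ℝ)) ∈ K) (h01 : ((0 : ℝ), (1 : ℝ)) ∈ K)
    {z : Fin 8 → ℝ} (h : Dat K z) {p q : ℝ × ℝ} {m l : ℝ} (hl : 0 < l) (hl1 : l ≤ 1)
    (k00 : m ≤ tr p q (0, 0)) (k10 : m ≤ tr p q (1, 0)) (k11 : m ≤ tr p q (1, 1))
    (k01 : m ≤ tr p q (0, 1)) (k1 : m ≤ tr p q (z 4, -z 0)) (k2 : m ≤ tr p q (1 + z 1, z 5))
    (k3 : m ≤ tr p q (z 6, 1 + z 2)) (k4 : m ≤ tr p q (-z 3, z 7))
    (l00 : l * tr p q (0, 0) < m) (l10 : l * tr p q (1, 0) < m) (l11 : l * tr p q (1, 1) < m)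
    (l01 : l * tr p q (0, 1) < m) {x0 : ℝ × ℝ} (hx0 : x0 ∈ K) (hneg : tr p q x0 < 0) :
    ENNReal.ofReal (1 + (z 0 + z 1 + z 2 + z 3) / 2 + l ^ 2) ≤ volume K := by
  have hS : MeasurableSet {x | m ≤ tr p q x} := meas_half p q m
  rw [← measure_inter_add_sdiff (μ := volume) K hS]
  have hz : 0 ≤ 1 + (z 0 + z 1 + z 2 + z 3) / 2 := by
    linarith [h.d1, h.d2, h.d3, h.d4]
  rw [ENNReal.ofReal_add hz (by positivity)]
  refine add_le_add ?_ ?_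
  · have hd : Dat (K ∩ {x | m ≤ tr p q x}) z :=
      ⟨h.d1, h.d2, h.d3, h.d4, h.x1, h.x1', h.y2, h.y2', h.x3, h.x3', h.y4, h.y4', ⟨h.c1, k1⟩,
        ⟨h.c2, k2⟩, ⟨h.c3, k3⟩, ⟨h.c4, k4⟩, h.box⟩
    exact hd.area (hK.inter (convex_half p q m)) ⟨h00, k00⟩ ⟨h10, k10⟩ ⟨h11, k11⟩ ⟨h01, k01⟩
  · have hsub : ((fun x : ℝ × ℝ => (((1 - l) * x0.1 + (l * x.1 + 0 * x.2),
        (1 - l) * x0.2 + (0 * x.1 + l * x.2)) : ℝ × ℝ)) '' (Icc (0 : ℝ) 1 ×ˢ Icc (0 : ℝ) 1)) ⊆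
        K \ {x | m ≤ tr p q x} := by
      rintro _ ⟨⟨x, y⟩, hxy, rfl⟩
      have hyK := sq_subset hK h00 h10 h11 h01 hxy
      obtain ⟨⟨hx0', hx1'⟩, ⟨hy0', hy1'⟩⟩ := hxy
      simp only at hx0' hx1' hy0' hy1'
      have e0 : (((1 - l) * x0.1 + (l * x + 0 * y), (1 - l) * x0.2 + (0 * x + l * y)) : ℝ × ℝ) =
          (1 - l) • x0 + l • ((x, y) : ℝ × ℝ) := by
        ext
        · simp
        · simp
      show (((1 - l) * x0.1 + (l * x + 0 * y), (1 - l) * x0.2 + (0 * x + l * y)) : ℝ × ℝ) ∈ _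
      rw [e0]
      refine ⟨hK hx0 hyK (by linarith) hl.le (by ring), ?_⟩
      show ¬ (m ≤ tr p q ((1 - l) • x0 + l • ((x, y) : ℝ × ℝ)))
      have e : tr p q ((1 - l) • x0 + l • ((x, y) : ℝ × ℝ)) = (1 - l) * tr p q x0 +
          ((1 - x) * (1 - y) * (l * tr p q (0, 0)) + x * (1 - y) * (l * tr p q (1, 0)) +
          x * y * (l * tr p q (1, 1)) + (1 - x) * y * (l * tr p q (0, 1))) := by
        unfold tr
        simp
        ring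
      rw [e, not_le]
      have w1 : 0 ≤ (1 - x) * (1 - y) := mul_nonneg (by linarith) (by linarith)
      have w2 : 0 ≤ x * (1 - y) := mul_nonneg (by linarith) (by linarith)
      have w3 : 0 ≤ x * y := mul_nonneg (by linarith) (by linarith)
      have w4 : 0 ≤ (1 - x) * y := mul_nonneg (by linarith) (by linarith)
      have hM : ∃ M, M < m ∧ l * tr p q (0, 0) ≤ M ∧ l * tr p q (1, 0) ≤ M ∧
          l * tr p q (1, 1) ≤ M ∧ l * tr p q (0, 1) ≤ M :=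
        ⟨max (max (l * tr p q (0, 0)) (l * tr p q (1, 0))) (max (l * tr p q (1, 1))
          (l * tr p q (0, 1))), max_lt (max_lt l00 l10) (max_lt l11 l01),
          (le_max_left _ _).trans (le_max_left _ _), (le_max_right _ _).trans (le_max_left _ _),
          (le_max_left _ _).trans (le_max_right _ _), (le_max_right _ _).trans (le_max_right _ _)⟩
      obtain ⟨M, hM, m1, m2, m3, m4⟩ := hM
      have s1 := mul_le_mul_of_nonneg_left m1 w1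
      have s2 := mul_le_mul_of_nonneg_left m2 w2
      have s3 := mul_le_mul_of_nonneg_left m3 w3
      have s4 := mul_le_mul_of_nonneg_left m4 w4
      have s5 : (1 - l) * tr p q x0 ≤ 0 := mul_nonpos_of_nonneg_of_nonpos (by linarith) hneg.le
      have s6 : (1 - x) * (1 - y) * M + x * (1 - y) * M + x * y * M + (1 - x) * y * M = M := by ring
      linarith
    refine le_trans ?_ (measure_mono hsub)
    have hv := vol_affine ((1 - l) * x0.1, (1 - l) * x0.2) (l, 0) (0, l)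
      (Icc (0 : ℝ) 1 ×ˢ Icc (0 : ℝ) 1)
    refine le_trans (le_of_eq ?_) hv.ge
    rw [vol_sq, mul_one]
    congr 1
    unfold cr
    simp only [mul_zero, sub_zero]
    rw [abs_of_pos (mul_pos hl hl)]
    ring

theorem ex_lt2 {a b : ℝ} (ha : 0 < a) (hb : 0 < b) : ∃ m : ℝ, 0 < m ∧ m < a ∧ m < b :=
  ⟨min a b / 2, by have := lt_min ha hb; positivity, by
    have := lt_min ha hb; linarith [min_le_left a b], by
    have := lt_min ha hb; linarith [min_le_right a b]⟩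

theorem ex_lt4 {a b c d : ℝ} (ha : 0 < a) (hb : 0 < b) (hc : 0 < c) (hd : 0 < d) :
    ∃ m : ℝ, 0 < m ∧ m < a ∧ m < b ∧ m < c ∧ m < d := by
  obtain ⟨m1, h1, h2, h3⟩ := ex_lt2 ha hb
  obtain ⟨m2, h4, h5, h6⟩ := ex_lt2 hc hd
  obtain ⟨m, h7, h8, h9⟩ := ex_lt2 h1 h4
  exact ⟨m, h7, h8.trans h2, h8.trans h3, h9.trans h5, h9.trans h6⟩

theorem Dat.sqrt_le {K : Set (ℝ × ℝ)} {z : Fin 8 → ℝ} (h : Dat K z) :
    √2 ≤ 1 + (z 0 + z 1 + z 2 + z 3) / 2 := by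
  have h1 := h.box
  have := h.d1
  have := h.d2
  have := h.d3
  have := h.d4
  rw [Real.sqrt_le_iff]
  refine ⟨by linarith, ?_⟩
  nlinarith [sq_nonneg (z 1 + z 3 - z 0 - z 2)]

theorem line_ev {z : ℕ → Fin 8 → ℝ} {a : Fin 8 → ℝ} (hz : Tendsto z atTop (𝓝 a)) {p q : ℝ × ℝ}
    (k00 : 0 < tr p q (0, 0)) (k10 : 0 < tr p q (1, 0)) (k11 : 0 < tr p q (1, 1))
    (k01 : 0 < tr p q (0, 1)) (k1 : 0 < tr p q (a 4, -a 0)) (k2 : 0 < tr p q (1 + a 1, a 5))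
    (k3 : 0 < tr p q (a 6, 1 + a 2)) (k4 : 0 < tr p q (-a 3, a 7)) :
    ∃ l : ℝ, 0 < l ∧ ∀ᶠ n in atTop, ∀ K : Set (ℝ × ℝ), Nrm K → Dat K (z n) →
      (∃ x ∈ K, tr p q x < 0) → ENNReal.ofReal (√2 + l ^ 2) ≤ volume K := by
  obtain ⟨m1, h1, a1, a2, a3, a4⟩ := ex_lt4 k00 k10 k11 k01
  obtain ⟨m2, h2, b1, b2, b3, b4⟩ := ex_lt4 k1 k2 k3 k4
  obtain ⟨m, h3, c1, c2⟩ := ex_lt2 h1 h2
  obtain ⟨R, hR⟩ : ∃ R : ℝ, R = tr p q (0, 0) + tr p q (1, 0) + tr p q (1, 1) + tr p q (0, 1) :=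
    ⟨_, rfl⟩
  have hR0 : 0 < R := by rw [hR]; positivity
  have hRm : 0 < R + m := by positivity
  refine ⟨m / (R + m), by positivity, ?_⟩
  have e1 : ∀ᶠ w : Fin 8 → ℝ in 𝓝 a, m < tr p q (w 4, -w 0) := by
    have hc : Continuous (fun w : Fin 8 → ℝ => tr p q (w 4, -w 0)) := by unfold tr; fun_prop
    exact (hc.tendsto a).eventually (lt_mem_nhds (c2.trans b1))
  have e2 : ∀ᶠ w : Fin 8 → ℝ in 𝓝 a, m < tr p q (1 + w 1, w 5) := by
    have hc : Continuous (fun w : Fin 8 → ℝ => tr p q (1 + w 1, w 5)) := by unfold tr; fun_prop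
    exact (hc.tendsto a).eventually (lt_mem_nhds (c2.trans b2))
  have e3 : ∀ᶠ w : Fin 8 → ℝ in 𝓝 a, m < tr p q (w 6, 1 + w 2) := by
    have hc : Continuous (fun w : Fin 8 → ℝ => tr p q (w 6, 1 + w 2)) := by unfold tr; fun_prop
    exact (hc.tendsto a).eventually (lt_mem_nhds (c2.trans b3))
  have e4 : ∀ᶠ w : Fin 8 → ℝ in 𝓝 a, m < tr p q (-w 3, w 7) := by
    have hc : Continuous (fun w : Fin 8 → ℝ => tr p q (-w 3, w 7)) := by unfold tr; fun_prop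
    exact (hc.tendsto a).eventually (lt_mem_nhds (c2.trans b4))
  filter_upwards [hz.eventually e1, hz.eventually e2, hz.eventually e3, hz.eventually e4] with
    n f1 f2 f3 f4 K hK hD hx
  obtain ⟨x0, hx0, hneg⟩ := hx
  have hl : ∀ t : ℝ, t ≤ R → m / (R + m) * t < m := by
    intro t ht
    rw [div_mul_eq_mul_div, div_lt_iff₀ hRm]
    nlinarith
  have hc := cut hK.conv hK.h00 hK.h10 hK.h11 hK.h01 hD (p := p) (q := q) (m := m)
    (l := m / (R + m)) (by positivity) (by rw [div_le_one hRm]; linarith)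
    (c1.trans a1).le (c1.trans a2).le (c1.trans a3).le (c1.trans a4).le f1.le f2.le f3.le f4.le
    (hl _ (by linarith)) (hl _ (by linarith)) (hl _ (by linarith)) (hl _ (by linarith)) hx0 hneg
  refine le_trans (ENNReal.ofReal_le_ofReal ?_) hc
  linarith [hD.sqrt_le]

theorem lim : ∃ ε : ℝ, 0 < ε ∧ ∀ K : Set (ℝ × ℝ), Nrm K →
    ENNReal.ofReal (√2 + ε) ≤ volume K := by
  by_contra hcon
  push Not at hcon
  have h1 : ∀ n : ℕ, ∃ K : Set (ℝ × ℝ), ∃ z : Fin 8 → ℝ, Nrm K ∧ Dat K z ∧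
      volume K < ENNReal.ofReal (√2 + 1 / ((n : ℝ) + 1)) := by
    intro n
    obtain ⟨K, hK, hv⟩ := hcon (1 / ((n : ℝ) + 1)) (by positivity)
    obtain ⟨z, hz⟩ := hK.dat
    exact ⟨K, z, hK, hz, hv⟩
  choose K z hK hz hv using h1
  have hs2 : √2 ≤ 3 / 2 := by
    rw [Real.sqrt_le_left (by norm_num)]
    norm_num
  have hsq : √2 * √2 = 2 := Real.mul_self_sqrt (by norm_num)
  have hs0 : 0 < √2 := by positivity
  have hsum : ∀ n, 1 + (z n 0 + z n 1 + z n 2 + z n 3) / 2 < √2 + 1 / ((n : ℝ) + 1) := by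
    intro n
    have := ((hz n).area (hK n).conv (hK n).h00 (hK n).h10 (hK n).h11 (hK n).h01).trans_lt (hv n)
    rwa [ENNReal.ofReal_lt_ofReal_iff (by positivity)] at this
  have hone : ∀ n : ℕ, 1 / ((n : ℝ) + 1) ≤ 1 := by
    intro n
    rw [div_le_one (by positivity)]
    linarith [(Nat.cast_nonneg n : (0 : ℝ) ≤ n)]
  have hbd : ∀ n, z n ∈ Set.pi univ (fun _ : Fin 8 => Icc (0 : ℝ) 4) := by
    intro n i _
    have a1 := hsum n
    have a2 := hone n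
    have b := hz n
    have := b.d1
    have := b.d2
    have := b.d3
    have := b.d4
    fin_cases i
    · exact ⟨b.d1, by show z n 0 ≤ 4; linarith⟩
    · exact ⟨b.d2, by show z n 1 ≤ 4; linarith⟩
    · exact ⟨b.d3, by show z n 2 ≤ 4; linarith⟩
    · exact ⟨b.d4, by show z n 3 ≤ 4; linarith⟩
    · exact ⟨b.x1, by show z n 4 ≤ 4; linarith [b.x1']⟩
    · exact ⟨b.y2, by show z n 5 ≤ 4; linarith [b.y2']⟩
    · exact ⟨b.x3, by show z n 6 ≤ 4; linarith [b.x3']⟩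
    · exact ⟨b.y4, by show z n 7 ≤ 4; linarith [b.y4']⟩
  obtain ⟨a, ha, φ, hφ, hlim⟩ :=
    (isCompact_univ_pi (fun _ : Fin 8 => (isCompact_Icc : IsCompact (Icc (0 : ℝ) 4)))).tendsto_subseq hbd
  have hc : ∀ i, Tendsto (fun n => z (φ n) i) atTop (𝓝 (a i)) := fun i => tendsto_pi_nhds.mp hlim i
  have ha0 : ∀ i, 0 ≤ a i := fun i => (ha i (mem_univ i)).1
  have hbox : 2 ≤ (1 + a 1 + a 3) * (1 + a 0 + a 2) :=
    ge_of_tendsto' ((((hc 1).const_add 1).add (hc 3)).mul (((hc 0).const_add 1).add (hc 2)))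
      (fun n => (hz (φ n)).box)
  have ht0 : Tendsto (fun n : ℕ => 1 / ((φ n : ℝ) + 1)) atTop (𝓝 0) :=
    tendsto_one_div_add_atTop_nhds_zero_nat.comp hφ.tendsto_atTop
  have hle : 1 + (a 0 + a 1 + a 2 + a 3) / 2 ≤ √2 + 0 :=
    le_of_tendsto_of_tendsto' (((((hc 0).add (hc 1)).add (hc 2)).add (hc 3)).div_const 2 |>.const_add 1)
      (ht0.const_add (√2)) (fun n => (hsum (φ n)).le)
  have hprod : (a 1 + a 3 - (a 0 + a 2)) ^ 2 ≤ 0 := by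
    have h3 : 2 + (a 0 + a 1 + a 2 + a 3) ≤ 2 * √2 := by linarith
    have h4 : (2 + (a 0 + a 1 + a 2 + a 3)) ^ 2 ≤ (2 * √2) ^ 2 :=
      pow_le_pow_left₀ (by linarith [ha0 0, ha0 1, ha0 2, ha0 3]) h3 2
    nlinarith
  have heq : a 1 + a 3 = a 0 + a 2 := by
    have := pow_eq_zero_iff (two_ne_zero) |>.mp (le_antisymm hprod (sq_nonneg _))
    linarith
  have hU : √2 ≤ 1 + (a 1 + a 3) := by
    rw [Real.sqrt_le_iff]
    refine ⟨by linarith [ha0 1, ha0 3], ?_⟩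
    have e : 1 + a 0 + a 2 = 1 + a 1 + a 3 := by linarith
    rw [e] at hbox
    nlinarith
  have hu : a 1 + a 3 = √2 - 1 := by linarith
  have hv' : a 0 + a 2 = √2 - 1 := by linarith
  have hF := lemF (ha0 0) (ha0 1) (ha0 2) (ha0 3) hu hv' (ha0 4)
    (le_of_tendsto' (hc 4) (fun n => (hz (φ n)).x1')) (ha0 5)
    (le_of_tendsto' (hc 5) (fun n => (hz (φ n)).y2')) (ha0 6)
    (le_of_tendsto' (hc 6) (fun n => (hz (φ n)).x3')) (ha0 7)
    (le_of_tendsto' (hc 7) (fun n => (hz (φ n)).y4'))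
  obtain ⟨A, B, C, D, hQ, har, s1, s2, s3, s4, s5, s6, s7, s8⟩ := hF.strict
  obtain ⟨l1, hl1, v1⟩ := line_ev hlim s1.1 s2.1 s3.1 s4.1 s5.1 s6.1 s7.1 s8.1
  obtain ⟨l2, hl2, v2⟩ := line_ev hlim s1.2.1 s2.2.1 s3.2.1 s4.2.1 s5.2.1 s6.2.1 s7.2.1 s8.2.1
  obtain ⟨l3, hl3, v3⟩ := line_ev hlim s1.2.2.1 s2.2.2.1 s3.2.2.1 s4.2.2.1 s5.2.2.1 s6.2.2.1
    s7.2.2.1 s8.2.2.1
  obtain ⟨l4, hl4, v4⟩ := line_ev hlim s1.2.2.2 s2.2.2.2 s3.2.2.2 s4.2.2.2 s5.2.2.2 s6.2.2.2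
    s7.2.2.2 s8.2.2.2
  have w1 := ht0.eventually (gt_mem_nhds (by positivity : 0 < l1 ^ 2))
  have w2 := ht0.eventually (gt_mem_nhds (by positivity : 0 < l2 ^ 2))
  have w3 := ht0.eventually (gt_mem_nhds (by positivity : 0 < l3 ^ 2))
  have w4 := ht0.eventually (gt_mem_nhds (by positivity : 0 < l4 ^ 2))
  obtain ⟨n, n1, n2, n3, n4, m1, m2, m3, m4⟩ :=
    (v1.and (v2.and (v3.and (v4.and (w1.and (w2.and (w3.and w4))))))).exists
  have fin : ∀ l : ℝ, ENNReal.ofReal (√2 + l ^ 2) ≤ volume (K (φ n)) →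
      1 / ((φ n : ℝ) + 1) < l ^ 2 → False := by
    intro l h5 h6
    have h7 := h5.trans_lt (hv (φ n))
    rw [ENNReal.ofReal_lt_ofReal_iff (by positivity)] at h7
    linarith
  by_cases g1 : ∃ x ∈ K (φ n), tr A B x < 0
  · exact fin l1 (n1 _ (hK _) (hz _) g1) m1
  by_cases g2 : ∃ x ∈ K (φ n), tr B C x < 0
  · exact fin l2 (n2 _ (hK _) (hz _) g2) m2
  by_cases g3 : ∃ x ∈ K (φ n), tr C D x < 0
  · exact fin l3 (n3 _ (hK _) (hz _) g3) m3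
  by_cases g4 : ∃ x ∈ K (φ n), tr D A x < 0
  · exact fin l4 (n4 _ (hK _) (hz _) g4) m4
  push Not at g1 g2 g3 g4
  have := (hK (φ n)).min A B C D hQ (fun x hx => ⟨g1 x hx, g2 x hx, g3 x hx, g4 x hx⟩)
  linarith

end Run7.h417.CQ
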