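import Pool.Agent.Run7.h417.CQ.Basic

set_option autoImplicit false

/-!
# Minimal circumscribed quadrilaterals (MP_b29168_gt): the midpoints of the sides
-/

namespace Run7.h417.CQ

open MeasureTheory Set Filter Topology

/-- moving a side of a quadrilateral -/
theorem move {A B C D : ℝ × ℝ} (hQ : Quad A B C D) {K : Set (ℝ × ℝ)} (hK : IsCompact K)
    (hin : ∀ x ∈ K, HP A B C D x) {a b : ℝ} (hab : 0 < a + b)
    (ht : ∀ t : ℝ, 0 ≤ t → t ≤ 1 → (A.1 + t * (B.1 - A.1), A.2 + t * (B.2 - A.2)) ∈ K →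
      (1 - t) * a + t * b < 0) :
    ∃ A' B' : ℝ × ℝ, Quad A' B' C D ∧ (∀ x ∈ K, HP A' B' C D x) ∧ ar A' B' C D < ar A B C D := by
  have hE : 0 < tr D A B := hQ.2.2.2
  have hH : 0 < tr A B C := hQ.1
  obtain ⟨α, hα⟩ : ∃ α : ℝ, α = a / tr D A B := ⟨_, rfl⟩
  obtain ⟨β, hβ⟩ : ∃ β : ℝ, β = b / tr A B C := ⟨_, rfl⟩
  have hαE : α * tr D A B = a := by rw [hα]; field_simp
  have hβH : β * tr A B C = b := by rw [hβ]; field_simp
  -- the coefficients
  obtain ⟨c, hc⟩ : ∃ c : ℝ, c = α * β * ((D.1 - A.1) * (C.2 - B.2) - (D.2 - A.2) * (C.1 - B.1)) :=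
    ⟨_, rfl⟩
  obtain ⟨L, hL⟩ : ∃ L : ℝ × ℝ → ℝ, L = fun x =>
      (β * (C.1 - B.1) - α * (D.1 - A.1)) * (x.2 - A.2) -
      (β * (C.2 - B.2) - α * (D.2 - A.2)) * (x.1 - A.1) - a := ⟨_, rfl⟩
  obtain ⟨P, hP⟩ : ∃ P : ℝ → ℝ × ℝ, P = fun l =>
      (A.1 + l * (α * (D.1 - A.1)), A.2 + l * (α * (D.2 - A.2))) := ⟨_, rfl⟩
  obtain ⟨Q, hQd⟩ : ∃ Q : ℝ → ℝ × ℝ, Q = fun l =>
      (B.1 + l * (β * (C.1 - B.1)), B.2 + l * (β * (C.2 - B.2))) := ⟨_, rfl⟩
  have hP0 : P 0 = A := by rw [hP]; simp
  have hQ0 : Q 0 = B := by rw [hQd]; simp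
  have hPc : Continuous P := by rw [hP]; fun_prop
  have hQc : Continuous Q := by rw [hQd]; fun_prop
  have t1 : ∀ (l : ℝ) (x : ℝ × ℝ), tr (P l) (Q l) x = tr A B x + l * L x + l ^ 2 * c := by
    intro l x
    rw [hP, hQd, hL, hc, ← hαE]
    unfold tr
    simp only
    ring
  have t2 : ∀ (l : ℝ) (x : ℝ × ℝ), tr (Q l) C x = (1 - l * β) * tr B C x := by
    intro l x
    rw [hQd]
    unfold tr
    simp only
    ring
  have t3 : ∀ (l : ℝ) (x : ℝ × ℝ), tr D (P l) x = (1 - l * α) * tr D A x := by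
    intro l x
    rw [hP]
    unfold tr
    simp only
    ring
  have t4 : ∀ l : ℝ, ar (P l) (Q l) C D = ar A B C D + l * ((-(a + b) + l * c) / 2) := by
    intro l
    rw [hP, hQd, hc, ← hαE, ← hβH]
    unfold ar tr
    simp only
    ring
  -- positivity on `K`
  have hpos : ∀ x ∈ K, 0 < max (tr A B x) (L x) := by
    intro x hx
    obtain ⟨h1, h2, h3, h4⟩ := hin x hx
    rcases lt_or_eq_of_le h1 with hlt | heq
    · exact lt_max_of_lt_left hlt
    · apply lt_max_of_lt_right
      -- `x = A + t (B - A)`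
      obtain ⟨t, hte⟩ : ∃ t : ℝ, t = tr D A x / tr D A B := ⟨_, rfl⟩
      have ht0 : 0 ≤ t := by rw [hte]; exact div_nonneg h4 hE.le
      have htE : t * tr D A B = tr D A x := by rw [hte]; field_simp
      have hx1 : x.1 = A.1 + t * (B.1 - A.1) := by
        have e : (x.1 - A.1) * tr D A B = tr D A x * (B.1 - A.1) - tr A B x * (A.1 - D.1) := by
          unfold tr; ring
        rw [← heq, ← htE] at e
        have : (x.1 - A.1 - t * (B.1 - A.1)) * tr D A B = 0 := by linarith
        rcases mul_eq_zero.mp this with h | h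
        · linarith
        · exact absurd h hE.ne'
      have hx2 : x.2 = A.2 + t * (B.2 - A.2) := by
        have e : (x.2 - A.2) * tr D A B = tr D A x * (B.2 - A.2) - tr A B x * (A.2 - D.2) := by
          unfold tr; ring
        rw [← heq, ← htE] at e
        have : (x.2 - A.2 - t * (B.2 - A.2)) * tr D A B = 0 := by linarith
        rcases mul_eq_zero.mp this with h | h
        · linarith
        · exact absurd h hE.ne'
      have ht1 : t ≤ 1 := by
        have e : tr B C x = (1 - t) * tr A B C := by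
          unfold tr
          rw [hx1, hx2]
          ring
        rw [e] at h2
        by_contra hcon
        push Not at hcon
        have : (1 - t) * tr A B C < 0 := mul_neg_of_neg_of_pos (by linarith) hH
        linarith
      have hxe : x = (A.1 + t * (B.1 - A.1), A.2 + t * (B.2 - A.2)) := by
        ext
        · exact hx1
        · exact hx2
      have key := ht t ht0 ht1 (hxe ▸ hx)
      have e : L x = -((1 - t) * a + t * b) := by
        rw [hL]
        simp only
        rw [hx1, hx2, ← hαE, ← hβH]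
        unfold tr
        ring
      rw [e]
      linarith
  have hLc : Continuous L := by rw [hL]; fun_prop
  have htc : Continuous (fun x : ℝ × ℝ => tr A B x) := by unfold tr; fun_prop
  obtain ⟨δ, hδ0, hδ⟩ : ∃ δ : ℝ, 0 < δ ∧ ∀ x ∈ K, δ ≤ max (tr A B x) (L x) := by
    rcases K.eq_empty_or_nonempty with hem | hne
    · exact ⟨1, one_pos, fun x hx => by rw [hem] at hx; exact absurd hx (notMem_empty x)⟩
    · obtain ⟨p, hp, hmin⟩ := hK.exists_isMinOn hne (htc.max hLc).continuousOn
      exact ⟨max (tr A B p) (L p), hpos p hp, fun x hx => hmin hx⟩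
  obtain ⟨R, hR⟩ := hK.exists_bound_of_continuousOn hLc.continuousOn
  -- the small parameter
  have ev : ∀ f : ℝ → ℝ, Continuous f → 0 < f 0 → ∀ᶠ l in 𝓝[>] (0 : ℝ), 0 < f l := by
    intro f hf h0
    exact ((hf.tendsto 0).eventually (lt_mem_nhds h0)).filter_mono nhdsWithin_le_nhds
  have v1 := ev (fun l => tr (P l) (Q l) C) (by unfold tr; fun_prop) (by
    rw [hP0, hQ0]; exact hQ.1)
  have v2 := ev (fun l => tr (Q l) C D) (by unfold tr; fun_prop) (by
    rw [hQ0]; exact hQ.2.1)
  have v3 := ev (fun l => tr C D (P l)) (by unfold tr; fun_prop) (by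
    rw [hP0]; exact hQ.2.2.1)
  have v4 := ev (fun l => tr D (P l) (Q l)) (by unfold tr; fun_prop) (by
    rw [hP0, hQ0]; exact hQ.2.2.2)
  have v5 := ev (fun l => a + b - l * c) (by fun_prop) (by simpa using hab)
  have v6 := ev (fun l => 1 - l * β) (by fun_prop) (by simp)
  have v7 := ev (fun l => 1 - l * α) (by fun_prop) (by simp)
  have v8 := ev (fun l => δ - l * |c|) (by fun_prop) (by simpa using hδ0)
  have v9 := ev (fun l => δ - l * |R| - l ^ 2 * |c|) (by fun_prop) (by simpa using hδ0)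
  obtain ⟨l, hl0, w1, w2, w3, w4, w5, w6, w7, w8, w9⟩ :=
    ((eventually_mem_nhdsWithin).and (v1.and (v2.and (v3.and (v4.and (v5.and (v6.and (v7.and
      (v8.and v9))))))))).exists
  have hl : 0 < l := hl0
  refine ⟨P l, Q l, ⟨w1, w2, w3, w4⟩, ?_, ?_⟩
  · intro x hx
    obtain ⟨h1, h2, h3, h4⟩ := hin x hx
    refine ⟨?_, ?_, h3, ?_⟩
    · rw [t1]
      have hcc : -(l ^ 2 * |c|) ≤ l ^ 2 * c := by
        have : l ^ 2 * (-|c|) ≤ l ^ 2 * c := mul_le_mul_of_nonneg_left (neg_abs_le c) (by positivity)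
        linarith
      rcases le_max_iff.mp (hδ x hx) with hh | hh
      · have hb : -|R| ≤ L x := by
          have h5 := hR x hx
          rw [Real.norm_eq_abs] at h5
          have h6 := neg_abs_le (L x)
          have h7 := le_abs_self R
          linarith
        have : l * (-|R|) ≤ l * L x := mul_le_mul_of_nonneg_left hb hl.le
        linarith
      · have h5 : l * δ ≤ l * L x := mul_le_mul_of_nonneg_left hh hl.le
        have h6 : 0 ≤ l * (δ - l * |c|) := mul_nonneg hl.le w8.le
        have h7 : l * (δ - l * |c|) = l * δ - l ^ 2 * |c| := by ring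
        linarith
    · rw [t2]
      exact mul_nonneg w6.le h2
    · rw [t3]
      exact mul_nonneg w7.le h4
  · rw [t4]
    have : l * ((-(a + b) + l * c) / 2) < 0 := mul_neg_of_pos_of_neg hl (by linarith)
    linarith

/-- the midpoint of a side of a minimal quadrilateral is in the set -/
theorem mid_mem {A B C D : ℝ × ℝ} (hQ : Quad A B C D) {K : Set (ℝ × ℝ)} (hK : IsCompact K)
    (hconv : Convex ℝ K) (hin : ∀ x ∈ K, HP A B C D x)
    (hmin : ∀ A' B' C' D' : ℝ × ℝ, Quad A' B' C' D' → (∀ x ∈ K, HP A' B' C' D' x) →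
      ar A B C D ≤ ar A' B' C' D') : ((A.1 + B.1) / 2, (A.2 + B.2) / 2) ∈ K := by
  by_contra hno
  obtain ⟨g, hg⟩ : ∃ g : ℝ → ℝ × ℝ, g = fun t =>
      (A.1 + t * (B.1 - A.1), A.2 + t * (B.2 - A.2)) := ⟨_, rfl⟩
  have hgc : Continuous g := by rw [hg]; fun_prop
  have hhalf : g (1 / 2) ∉ K := by
    intro h
    apply hno
    have e : g (1 / 2) = ((A.1 + B.1) / 2, (A.2 + B.2) / 2) := by
      rw [hg]
      ext
      · simp only; ring
      · simp only; ring
    rwa [e] at h
  have hIc : IsCompact (Icc (0 : ℝ) 1 ∩ g ⁻¹' K) :=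
    isCompact_Icc.inter_right (hK.isClosed.preimage hgc)
  have hcv : Convex ℝ (g ⁻¹' K) := by
    intro x hx y hy a b ha hb hab
    show g (a • x + b • y) ∈ K
    have e : g (a • x + b • y) = a • g x + b • g y := by
      have hb' : b = 1 - a := by linarith
      rw [hg, hb']
      ext
      · simp
        ring
      · simp
        ring
    rw [e]
    exact hconv hx hy ha hb hab
  have contra : ∀ a b : ℝ, 0 < a + b → (∀ t ∈ Icc (0 : ℝ) 1 ∩ g ⁻¹' K, (1 - t) * a + t * b < 0) →
      False := by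
    intro a b hab h
    obtain ⟨A', B', h1, h2, h3⟩ := move hQ hK hin hab (fun t h0 h1 hm => h t ⟨⟨h0, h1⟩, by
      show g t ∈ K
      rw [hg]
      exact hm⟩)
    exact absurd (hmin A' B' C D h1 h2) (not_le.mpr h3)
  rcases (Icc (0 : ℝ) 1 ∩ g ⁻¹' K).eq_empty_or_nonempty with hem | hne
  · exact contra 1 0 (by norm_num) (fun t ht => by rw [hem] at ht; exact absurd ht (notMem_empty t))
  · obtain ⟨t1, ht1, hmin1⟩ := hIc.exists_isMinOn hne continuous_id.continuousOn
    obtain ⟨t2, ht2, hmax2⟩ := hIc.exists_isMaxOn hne continuous_id.continuousOn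
    have hm1 : ∀ t ∈ Icc (0 : ℝ) 1 ∩ g ⁻¹' K, t1 ≤ t := fun t ht => hmin1 ht
    have hm2 : ∀ t ∈ Icc (0 : ℝ) 1 ∩ g ⁻¹' K, t ≤ t2 := fun t ht => hmax2 ht
    rcases lt_or_ge (1 / 2) t1 with h1 | h1
    · refine contra 1 (-(1 / (2 * t1))) ?_ ?_
      · have : 1 / (2 * t1) < 1 := by
          rw [div_lt_one (by linarith)]
          linarith
        linarith
      · intro t ht
        have h2 := hm1 t ht
        have h3 : 1 / 2 ≤ t * (1 / (2 * t1)) := by
          have : t1 * (1 / (2 * t1)) = 1 / 2 := by field_simp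
          rw [← this]
          exact mul_le_mul_of_nonneg_right h2 (by positivity)
        linarith
    · rcases lt_or_ge t2 (1 / 2) with h2 | h2
      · refine contra (-(1 / (2 * (1 - t2)))) 1 ?_ ?_
        · have : 1 / (2 * (1 - t2)) < 1 := by
            rw [div_lt_one (by linarith)]
            linarith
          linarith
        · intro t ht
          have h3 := hm2 t ht
          have h5 : 0 < 1 - t2 := by linarith
          have h4 : 1 / 2 ≤ (1 - t) * (1 / (2 * (1 - t2))) := by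
            have : (1 - t2) * (1 / (2 * (1 - t2))) = 1 / 2 := by field_simp
            rw [← this]
            exact mul_le_mul_of_nonneg_right (by linarith) (by positivity)
          linarith
      · exact hhalf (hcv.ordConnected.out ht1.2 ht2.2 ⟨h1, h2⟩)

end Run7.h417.CQ
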