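import Pool.Agent.Run7.h417.CQ.Deg
import Pool.Agent.Run7.h417.CQ.Mid
import Pool.Agent.Run7.h417.CQ.Lim

set_option autoImplicit false

/-!
# Minimal circumscribed quadrilaterals (MP_b29168_gt): normalization and the main theorem
-/

namespace Run7.h417.CQ

open MeasureTheory Set Filter Topology

/-- the affine map with the origin `M` and the columns `e`, `f` -/
def AM (M e f : ℝ × ℝ) (x : ℝ × ℝ) : ℝ × ℝ :=
  (M.1 + (e.1 * x.1 + f.1 * x.2), M.2 + (e.2 * x.1 + f.2 * x.2))

/-- its inverse -/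
noncomputable def AI (M e f : ℝ × ℝ) (y : ℝ × ℝ) : ℝ × ℝ :=
  (((y.1 - M.1) * f.2 - (y.2 - M.2) * f.1) / cr e f, (e.1 * (y.2 - M.2) - e.2 * (y.1 - M.1)) / cr e f)

theorem AM_AI {M e f : ℝ × ℝ} (h : cr e f ≠ 0) (y : ℝ × ℝ) : AM M e f (AI M e f y) = y := by
  ext
  · simp only [AM, AI]
    field_simp
    unfold cr
    ring
  · simp only [AM, AI]
    field_simp
    unfold cr
    ring

theorem AI_AM {M e f : ℝ × ℝ} (h : cr e f ≠ 0) (x : ℝ × ℝ) : AI M e f (AM M e f x) = x := by
  ext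
  · simp only [AM, AI]
    field_simp
    unfold cr
    ring
  · simp only [AM, AI]
    field_simp
    unfold cr
    ring

theorem tr_AM (M e f p q r : ℝ × ℝ) :
    tr (AM M e f p) (AM M e f q) (AM M e f r) = cr e f * tr p q r := by
  unfold tr AM cr
  ring

theorem AM_conv {M e f : ℝ × ℝ} {K : Set (ℝ × ℝ)} (hK : Convex ℝ K) :
    Convex ℝ (AM M e f ⁻¹' K) := by
  intro x hx y hy a b ha hb hab
  show AM M e f (a • x + b • y) ∈ K
  have e : AM M e f (a • x + b • y) = a • AM M e f x + b • AM M e f y := by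
    have hb' : b = 1 - a := by linarith
    rw [hb']
    ext
    · simp [AM]
      ring
    · simp [AM]
      ring
  rw [e]
  exact hK hx hy ha hb hab

theorem AM_comp {M e f : ℝ × ℝ} (h : cr e f ≠ 0) {K : Set (ℝ × ℝ)} (hK : IsCompact K) :
    IsCompact (AM M e f ⁻¹' K) := by
  have e : AM M e f ⁻¹' K = AI M e f '' K := by
    ext x
    constructor
    · intro hx
      exact ⟨_, hx, AI_AM h x⟩
    · rintro ⟨y, hy, rfl⟩
      show AM M e f (AI M e f y) ∈ K
      rw [AM_AI h]
      exact hy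
  rw [e]
  refine hK.image ?_
  unfold AI
  fun_prop

theorem AM_vol {M e f : ℝ × ℝ} (h : cr e f ≠ 0) (K : Set (ℝ × ℝ)) :
    volume K = ENNReal.ofReal |cr e f| * volume (AM M e f ⁻¹' K) := by
  have h1 := vol_affine M e f (AM M e f ⁻¹' K)
  have h2 : ((fun x : ℝ × ℝ => (M.1 + (e.1 * x.1 + f.1 * x.2), M.2 + (e.2 * x.1 + f.2 * x.2))) ''
      (AM M e f ⁻¹' K)) = K := by
    ext y
    constructor
    · rintro ⟨x, hx, rfl⟩
      exact hx
    · intro hy
      refine ⟨AI M e f y, ?_, AM_AI h y⟩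
      show AM M e f (AI M e f y) ∈ K
      rw [AM_AI h]
      exact hy
  rwa [h2] at h1

/-- the area of a strict minimal quadrilateral -/
theorem strict_case {ε : ℝ} (hε : 0 < ε)
    (hlim : ∀ K : Set (ℝ × ℝ), Nrm K → ENNReal.ofReal (√2 + ε) ≤ volume K)
    {A B C D : ℝ × ℝ} (hQ : Quad A B C D) {K : Set (ℝ × ℝ)} (hK : IsCompact K)
    (hconv : Convex ℝ K) (hvol : volume K = 1) (hin : ∀ x ∈ K, HP A B C D x)
    (hmin : ∀ A' B' C' D' : ℝ × ℝ, Quad A' B' C' D' → (∀ x ∈ K, HP A' B' C' D' x) →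
      ar A B C D ≤ ar A' B' C' D') : ar A B C D ≤ 2 / (√2 + ε) := by
  have m1 := mid_mem hQ hK hconv hin hmin
  have hin2 : ∀ x ∈ K, HP B C D A x := fun x hx =>
    ⟨(hin x hx).2.1, (hin x hx).2.2.1, (hin x hx).2.2.2, (hin x hx).1⟩
  have hin3 : ∀ x ∈ K, HP C D A B x := fun x hx =>
    ⟨(hin x hx).2.2.1, (hin x hx).2.2.2, (hin x hx).1, (hin x hx).2.1⟩
  have hin4 : ∀ x ∈ K, HP D A B C x := fun x hx =>
    ⟨(hin x hx).2.2.2, (hin x hx).1, (hin x hx).2.1, (hin x hx).2.2.1⟩
  have m2 := mid_mem hQ.rot hK hconv hin2 (by rw [ar_rot]; exact hmin)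
  have m3 := mid_mem hQ.rot.rot hK hconv hin3 (by rw [ar_rot, ar_rot]; exact hmin)
  have m4 := mid_mem hQ.rot.rot.rot hK hconv hin4 (by rw [ar_rot, ar_rot, ar_rot]; exact hmin)
  obtain ⟨M, hM⟩ : ∃ M : ℝ × ℝ, M = ((D.1 + A.1) / 2, (D.2 + A.2) / 2) := ⟨_, rfl⟩
  obtain ⟨e, he⟩ : ∃ e : ℝ × ℝ, e = ((B.1 - D.1) / 2, (B.2 - D.2) / 2) := ⟨_, rfl⟩
  obtain ⟨f, hf⟩ : ∃ f : ℝ × ℝ, f = ((C.1 - A.1) / 2, (C.2 - A.2) / 2) := ⟨_, rfl⟩
  have hcr : cr e f = ar A B C D / 2 := by
    rw [he, hf]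
    unfold cr ar tr
    ring
  have har : 0 < ar A B C D := by
    unfold ar
    linarith [hQ.1, hQ.2.2.1]
  have hcr0 : 0 < cr e f := by rw [hcr]; linarith
  have b1 : ∀ x : ℝ × ℝ, tr A B (AM M e f x) =
      (tr D A B * (1 - x.1) + tr A B C * x.2) / 2 := by
    intro x
    rw [hM, he, hf]
    unfold tr AM
    ring
  have b2 : ∀ x : ℝ × ℝ, tr B C (AM M e f x) =
      (tr A B C * (1 - x.2) + tr B C D * (1 - x.1)) / 2 := by
    intro x
    rw [hM, he, hf]
    unfold tr AM
    ring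
  have b3 : ∀ x : ℝ × ℝ, tr C D (AM M e f x) =
      (tr C D A * (1 - x.2) + tr B C D * x.1) / 2 := by
    intro x
    rw [hM, he, hf]
    unfold tr AM
    ring
  have b4 : ∀ x : ℝ × ℝ, tr D A (AM M e f x) =
      (tr D A B * x.1 + tr C D A * x.2) / 2 := by
    intro x
    rw [hM, he, hf]
    unfold tr AM
    ring
  obtain ⟨hH, hF, hG, hE⟩ := id hQ
  have key : ∀ x ∈ AM M e f ⁻¹' K, 0 ≤ tr D A B * (1 - x.1) + tr A B C * x.2 ∧
      0 ≤ tr A B C * (1 - x.2) + tr B C D * (1 - x.1) ∧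
      0 ≤ tr C D A * (1 - x.2) + tr B C D * x.1 ∧
      0 ≤ tr D A B * x.1 + tr C D A * x.2 := by
    intro x hx
    obtain ⟨h1, h2, h3, h4⟩ := hin _ hx
    rw [b1] at h1
    rw [b2] at h2
    rw [b3] at h3
    rw [b4] at h4
    exact ⟨by linarith, by linarith, by linarith, by linarith⟩
  have nrm : Nrm (AM M e f ⁻¹' K) := by
    refine ⟨AM_conv hconv, AM_comp hcr0.ne' hK, ?_, ?_, ?_, ?_, ?_, ?_, ?_, ?_, ?_⟩
    · show AM M e f (0, 0) ∈ K
      have : AM M e f (0, 0) = ((D.1 + A.1) / 2, (D.2 + A.2) / 2) := by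
        rw [hM]; simp [AM]
      rw [this]
      exact m4
    · show AM M e f (1, 0) ∈ K
      have : AM M e f (1, 0) = ((A.1 + B.1) / 2, (A.2 + B.2) / 2) := by
        rw [hM, he, hf]
        unfold AM
        ext
        · simp only; ring
        · simp only; ring
      rw [this]
      exact m1
    · show AM M e f (1, 1) ∈ K
      have : AM M e f (1, 1) = ((B.1 + C.1) / 2, (B.2 + C.2) / 2) := by
        rw [hM, he, hf]
        unfold AM
        ext
        · simp only; ring
        · simp only; ring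
      rw [this]
      exact m2
    · show AM M e f (0, 1) ∈ K
      have : AM M e f (0, 1) = ((C.1 + D.1) / 2, (C.2 + D.2) / 2) := by
        rw [hM, he, hf]
        unfold AM
        ext
        · simp only; ring
        · simp only; ring
      rw [this]
      exact m3
    · intro x hx h
      obtain ⟨h1, h2, h3, h4⟩ := key x hx
      constructor
      · by_contra hc
        push Not at hc
        nlinarith [mul_pos hE (neg_pos.mpr hc), mul_pos hG (neg_pos.mpr h)]
      · by_contra hc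
        push Not at hc
        nlinarith [mul_pos hE (sub_pos.mpr hc), mul_pos hH (neg_pos.mpr h)]
    · intro x hx h
      obtain ⟨h1, h2, h3, h4⟩ := key x hx
      constructor
      · by_contra hc
        push Not at hc
        nlinarith [mul_pos hF (neg_pos.mpr hc), mul_pos hG (sub_pos.mpr h)]
      · by_contra hc
        push Not at hc
        nlinarith [mul_pos hF (sub_pos.mpr hc), mul_pos hH (sub_pos.mpr h)]
    · intro x hx h
      obtain ⟨h1, h2, h3, h4⟩ := key x hx
      constructor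
      · by_contra hc
        push Not at hc
        nlinarith [mul_pos hG (neg_pos.mpr hc), mul_pos hE (neg_pos.mpr h)]
      · by_contra hc
        push Not at hc
        nlinarith [mul_pos hG (sub_pos.mpr hc), mul_pos hF (neg_pos.mpr h)]
    · intro x hx h
      obtain ⟨h1, h2, h3, h4⟩ := key x hx
      constructor
      · by_contra hc
        push Not at hc
        nlinarith [mul_pos hH (neg_pos.mpr hc), mul_pos hE (sub_pos.mpr h)]
      · by_contra hc
        push Not at hc
        nlinarith [mul_pos hH (sub_pos.mpr hc), mul_pos hF (sub_pos.mpr h)]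
    · intro A' B' C' D' hQ' hin'
      have hQ'' : Quad (AM M e f A') (AM M e f B') (AM M e f C') (AM M e f D') := by
        refine ⟨?_, ?_, ?_, ?_⟩
        · rw [tr_AM]; exact mul_pos hcr0 hQ'.1
        · rw [tr_AM]; exact mul_pos hcr0 hQ'.2.1
        · rw [tr_AM]; exact mul_pos hcr0 hQ'.2.2.1
        · rw [tr_AM]; exact mul_pos hcr0 hQ'.2.2.2
      have hin'' : ∀ x ∈ K, HP (AM M e f A') (AM M e f B') (AM M e f C') (AM M e f D') x := by
        intro x hx
        have hx' : AI M e f x ∈ AM M e f ⁻¹' K := by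
          show AM M e f (AI M e f x) ∈ K
          rw [AM_AI hcr0.ne']
          exact hx
        obtain ⟨h1, h2, h3, h4⟩ := hin' _ hx'
        rw [← AM_AI hcr0.ne' x]
        refine ⟨?_, ?_, ?_, ?_⟩
        · rw [tr_AM]; exact mul_nonneg hcr0.le h1
        · rw [tr_AM]; exact mul_nonneg hcr0.le h2
        · rw [tr_AM]; exact mul_nonneg hcr0.le h3
        · rw [tr_AM]; exact mul_nonneg hcr0.le h4
      have h1 := hmin _ _ _ _ hQ'' hin''
      have h2 : ar (AM M e f A') (AM M e f B') (AM M e f C') (AM M e f D') =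
          ar A B C D / 2 * ar A' B' C' D' := by
        rw [← hcr]
        unfold ar
        rw [tr_AM, tr_AM]
        ring
      rw [h2] at h1
      by_contra hc
      push Not at hc
      nlinarith
  have h1 := hlim _ nrm
  have h2 := AM_vol (M := M) hcr0.ne' K
  rw [hvol, abs_of_pos hcr0, hcr] at h2
  have h3 : ENNReal.ofReal (ar A B C D / 2 * (√2 + ε)) ≤ 1 := by
    rw [h2, ENNReal.ofReal_mul (by linarith)]
    exact mul_le_mul_right h1 _
  rw [ENNReal.ofReal_le_one] at h3
  rw [le_div_iff₀ (by positivity)]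
  linarith

/-- a convex set of area one contains a small right triangle -/
theorem small_triangle {K : Set (ℝ × ℝ)} (hK : Convex ℝ K) (hv : volume K = 1) :
    ∃ (x0 : ℝ × ℝ) (s : ℝ), 0 < s ∧ x0 ∈ K ∧ (x0.1 + s, x0.2) ∈ K ∧ (x0.1, x0.2 + s) ∈ K := by
  have hne : (interior K).Nonempty := by
    by_contra hc
    rw [not_nonempty_iff_eq_empty] at hc
    have h1 : K ⊆ frontier K := by
      intro x hx
      rw [frontier, hc, sdiff_empty]
      exact subset_closure hx
    have h2 : volume K = 0 := measure_mono_null h1 (hK.addHaar_frontier volume)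
    rw [hv] at h2
    exact one_ne_zero h2
  obtain ⟨x0, hx0⟩ := hne
  have hc1 : Continuous (fun s : ℝ => (x0.1 + s, x0.2)) := by fun_prop
  have hc2 : Continuous (fun s : ℝ => (x0.1, x0.2 + s)) := by fun_prop
  have e1 : ∀ᶠ s in 𝓝[>] (0 : ℝ), (x0.1 + s, x0.2) ∈ interior K := by
    refine ((hc1.tendsto 0).eventually (isOpen_interior.mem_nhds ?_)).filter_mono nhdsWithin_le_nhds
    simpa using hx0
  have e2 : ∀ᶠ s in 𝓝[>] (0 : ℝ), (x0.1, x0.2 + s) ∈ interior K := by
    refine ((hc2.tendsto 0).eventually (isOpen_interior.mem_nhds ?_)).filter_mono nhdsWithin_le_nhds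
    simpa using hx0
  obtain ⟨s, hs, h1, h2⟩ := (eventually_mem_nhdsWithin.and (e1.and e2)).exists
  exact ⟨x0, s, hs, interior_subset hx0, interior_subset h1, interior_subset h2⟩

theorem tr_le_of_mem {K : Set (ℝ × ℝ)} (hK : Convex ℝ K) (hv : volume K = 1) {p q r : ℝ × ℝ}
    (hp : p ∈ K) (hq : q ∈ K) (hr : r ∈ K) : |tr p q r| ≤ 2 := by
  have h1 := measure_mono (μ := volume) (Tri_subset hK hp hq hr)
  rw [vol_Tri, hv, ENNReal.ofReal_le_one] at h1
  linarith

theorem bdd {K : Set (ℝ × ℝ)} (hK : Convex ℝ K) (hv : volume K = 1) : Bornology.IsBounded K := by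
  obtain ⟨x0, s, hs, h0, h1, h2⟩ := small_triangle hK hv
  refine ((isCompact_Icc (a := x0.1 - 2 / s) (b := x0.1 + 2 / s)).prod
    (isCompact_Icc (a := x0.2 - 2 / s) (b := x0.2 + 2 / s))).isBounded.subset ?_
  intro x hx
  have a1 := tr_le_of_mem hK hv h0 h1 hx
  have a2 := tr_le_of_mem hK hv h0 h2 hx
  have e1 : tr x0 (x0.1 + s, x0.2) x = s * (x.2 - x0.2) := by unfold tr; ring
  have e2 : tr x0 (x0.1, x0.2 + s) x = -(s * (x.1 - x0.1)) := by unfold tr; ring
  rw [e1, abs_mul, abs_of_pos hs, ← le_div_iff₀' hs, abs_le] at a1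
  rw [e2, abs_neg, abs_mul, abs_of_pos hs, ← le_div_iff₀' hs, abs_le] at a2
  exact ⟨⟨by linarith, by linarith⟩, ⟨by linarith, by linarith⟩⟩

theorem vol_closure {K : Set (ℝ × ℝ)} (hK : Convex ℝ K) (hv : volume K = 1) :
    volume (closure K) = 1 := by
  apply le_antisymm
  · have h1 : closure K ⊆ K ∪ frontier K := by
      rw [closure_eq_interior_union_frontier]
      exact union_subset_union_left _ interior_subset
    refine (measure_mono h1).trans ((measure_union_le _ _).trans ?_)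
    rw [hK.addHaar_frontier volume, add_zero, hv]
  · rw [← hv]
    exact measure_mono subset_closure

/-- every convex set of area one is in a quadrilateral of area at most `c`, where `c < √2` -/
theorem main : ∃ c : ℝ, c < √2 ∧ ∀ K : Set (ℝ × ℝ), Convex ℝ K → volume K = 1 →
    ∃ A B C D : ℝ × ℝ, Quad A B C D ∧ K ⊆ convexHull ℝ {A, B, C, D} ∧
      volume (convexHull ℝ {A, B, C, D}) ≤ ENNReal.ofReal c := by
  obtain ⟨ε, hε, hlim⟩ := lim
  have hs0 : 0 < √2 := by positivity
  have hsq : √2 * √2 = 2 := Real.mul_self_sqrt (by norm_num)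
  refine ⟨max (11 / 10) (2 / (√2 + ε)), max_lt ?_ ?_, ?_⟩
  · rw [Real.lt_sqrt (by norm_num)]
    norm_num
  · rw [div_lt_iff₀ (by positivity)]
    nlinarith
  · intro K hK hv
    have hKc : IsCompact (closure K) := (bdd hK hv).isCompact_closure
    have hKv : Convex ℝ (closure K) := hK.closure
    have hv' := vol_closure hK hv
    obtain ⟨x0, s, hs, h0, h1, h2⟩ := small_triangle hKv hv'
    have hpqr : 0 < tr x0 (x0.1 + s, x0.2) (x0.1, x0.2 + s) := by
      have : tr x0 (x0.1 + s, x0.2) (x0.1, x0.2 + s) = s * s := by unfold tr; ring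
      rw [this]
      positivity
    have key : ∃ A B C D : ℝ × ℝ, Quad A B C D ∧ (∀ x ∈ closure K, HP A B C D x) ∧
        ar A B C D ≤ max (11 / 10) (2 / (√2 + ε)) := by
      obtain ⟨A, B, C, D, hW, hin, hmin⟩ := ex_min hKc h0 h1 h2 hpqr
      by_cases hQ : Quad A B C D
      · have hin' : ∀ x ∈ closure K, HP A B C D x := fun x hx => (hin x hx).hp hW
        exact ⟨A, B, C, D, hQ, hin',
          (strict_case hε hlim hQ hKc hKv hv' hin' hmin).trans (le_max_right _ _)⟩
      · obtain ⟨A', B', C', D', hQ', hin', har'⟩ := deg hW hQ hKc hKv hv' hin hmin h0 h1 h2 hpqr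
        exact ⟨A', B', C', D', hQ', hin', har'.trans (le_max_left _ _)⟩
    obtain ⟨A, B, C, D, hQ, hin, har⟩ := key
    refine ⟨A, B, C, D, hQ, ?_, ?_⟩
    · intro x hx
      exact ((hin x (subset_closure hx)).inQ hQ).mem_hull
    · exact (vol_hull_le hQ).trans (ENNReal.ofReal_le_ofReal har)

end Run7.h417.CQ
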